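import Pool.Agent.MP_3ad207_lc.H46.Parity

/-! Holes as vertex sets, the neighbour count (K) and the pair lemma (PAIR). -/

set_option autoImplicit false

namespace Pool.Agent.Ehf

variable {V : Type*}

/-- `X` is exactly the vertex set of an induced path from `u` to `v` -/
def PS (G : SimpleGraph V) (u v : V) (X : Set V) : Prop :=
  ∃ (n : ℕ) (f : ℕ → V), IsIP G f n ∧ f 0 = u ∧ f n = v ∧ X = seg f 0 n

/-- `O` is the vertex set of a hole -/
def HoleS (G : SimpleGraph V) (O : Set V) : Prop :=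
  ∃ (n : ℕ) (f : ℕ → V), 4 ≤ n ∧ IsCyc G f n ∧ O = seg f 0 (n - 1)

/-- the neighbours of `v` in `O` -/
def Nb (G : SimpleGraph V) (O : Set V) (v : V) : Set V := {x | x ∈ O ∧ G.Adj v x}

/-- the neighbours of `v` in `O` are the two ends of an edge -/
def Tri (G : SimpleGraph V) (O : Set V) (v : V) : Prop :=
  ∃ a b, G.Adj a b ∧ Nb G O v = {a, b}

/-- adjacent, or both see a connected set anticomplete to `O` -/
def Joined (G : SimpleGraph V) (O : Set V) (e f : V) : Prop :=
  G.Adj e f ∨ ∃ X, Conn G X ∧ Anti G X O ∧ Sees G e X ∧ Sees G f X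

variable {G : SimpleGraph V}

theorem mem_Nb {O : Set V} {v x : V} : x ∈ Nb G O v ↔ x ∈ O ∧ G.Adj v x := Iff.rfl

theorem Nb_nonempty {O : Set V} {v : V} : (Nb G O v).Nonempty ↔ Sees G v O := Iff.rfl

theorem Joined.symm {O : Set V} {e f : V} (h : Joined G O e f) : Joined G O f e := by
  rcases h with h | ⟨X, a, b, c, d⟩
  · exact Or.inl h.symm
  · exact Or.inr ⟨X, a, b, d, c⟩

theorem Joined.of_adj {O : Set V} {e f : V} (h : G.Adj e f) : Joined G O e f := Or.inl h

theorem Joined.of_conn {O X : Set V} {e f : V} (hX : Conn G X) (hA : Anti G X O)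
    (he : Sees G e X) (hf : Sees G f X) : Joined G O e f := Or.inr ⟨X, hX, hA, he, hf⟩

/-- two vertices of an induced path whose vertices in between are anticomplete to `O` -/
theorem IsIP.joined {O : Set V} {p : ℕ → V} {n i j : ℕ} (hp : IsIP G p n) (hij : i < j)
    (hj : j ≤ n) (h : ∀ k, i < k → k < j → p k ∉ cN G O) : Joined G O (p i) (p j) := by
  by_cases e : j = i + 1
  · subst e; exact Or.inl (hp.adj_succ (by omega))
  refine Or.inr ⟨seg p (i + 1) (j - 1), hp.conn_seg (by omega) (by omega), ?_, ?_, ?_⟩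
  · rw [anti_iff]
    rintro x ⟨k, k1, k2, rfl⟩
    exact h k (by omega) (by omega)
  · exact ⟨p (i + 1), apply_mem_seg le_rfl (by omega), hp.adj_succ (by omega)⟩
  · exact ⟨p (j - 1), apply_mem_seg (by omega) le_rfl, hp.adj_pred (by omega) hj⟩

/-! ### exact paths -/

theorem IsIP.ps {f : ℕ → V} {n i j : ℕ} (h : IsIP G f n) (hij : i ≤ j) (hj : j ≤ n) :
    PS G (f i) (f j) (seg f i j) := by
  refine ⟨j - i, fun k => f (i + k), h.shift hj, rfl, by simp [hij], ?_⟩
  ext x
  constructor
  · rintro ⟨k, k1, k2, rfl⟩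
    exact ⟨k - i, by omega, by omega, by show f (i + (k - i)) = f k; congr 1; omega⟩
  · rintro ⟨k, -, k2, rfl⟩
    exact ⟨i + k, by omega, by omega, rfl⟩

theorem PS.symm {u v : V} {X : Set V} (h : PS G u v X) : PS G v u X := by
  obtain ⟨n, f, hf, f0, fn, rfl⟩ := h
  refine ⟨n, fun i => f (n - i), hf.rev, by simpa using fn, by simpa using f0, ?_⟩
  ext x
  constructor
  · rintro ⟨k, -, k2, rfl⟩
    exact ⟨n - k, by omega, by omega, by show f (n - (n - k)) = f k; congr 1; omega⟩
  · rintro ⟨k, -, k2, rfl⟩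
    exact ⟨n - k, by omega, by omega, rfl⟩

theorem PS.single (u : V) : PS G u u {u} :=
  ⟨0, fun _ => u, fun i j h1 h2 => by omega, rfl, rfl, (seg_self (fun _ => u) 0).symm⟩

theorem PS.left_mem {u v : V} {X : Set V} (h : PS G u v X) : u ∈ X := by
  obtain ⟨n, f, -, f0, -, rfl⟩ := h
  exact ⟨0, le_rfl, Nat.zero_le _, f0⟩

theorem PS.right_mem {u v : V} {X : Set V} (h : PS G u v X) : v ∈ X := h.symm.left_mem

theorem PS.conn {u v : V} {X : Set V} (h : PS G u v X) : Conn G X := by
  obtain ⟨n, f, hf, -, -, rfl⟩ := h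
  exact hf.conn_seg (Nat.zero_le _) le_rfl

theorem PS.ipc {u v : V} {X : Set V} (h : PS G u v X) : ∃ n, IPc G u v n X := by
  obtain ⟨n, f, hf, f0, fn, rfl⟩ := h
  exact ⟨n, f, hf, f0, fn, fun i hi => apply_mem_seg (Nat.zero_le _) hi⟩

theorem IPc.exists_ps {u v : V} {n : ℕ} {X : Set V} (h : IPc G u v n X) :
    ∃ Y, Y ⊆ X ∧ PS G u v Y := by
  obtain ⟨f, hf, f0, fn, fX⟩ := h
  exact ⟨seg f 0 n, seg_subset fun k _ hk => fX k hk, n, f, hf, f0, fn, rfl⟩

theorem Conn.exists_ps {X : Set V} (hX : Conn G X) {u v : V} (hu : u ∈ X) (hv : v ∈ X) :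
    ∃ Y, Y ⊆ X ∧ PS G u v Y := by
  obtain ⟨n, h⟩ := hX.exists_ipc hu hv
  exact h.exists_ps

/-- concatenation across an edge -/
theorem PS.concat_adj {u x y v : V} {X Y : Set V} (h1 : PS G u x X) (h2 : PS G y v Y)
    (e : G.Adj x y) (hd : Disjoint X Y)
    (hc : ∀ a ∈ X, ∀ b ∈ Y, G.Adj a b → a = x ∧ b = y) : PS G u v (X ∪ Y) := by
  obtain ⟨n, f, hf, f0, fn, rfl⟩ := h1
  obtain ⟨m, g, hg, g0, gm, rfl⟩ := h2
  refine ⟨n + 1 + m, fun i => if i ≤ n then f i else g (i - (n + 1)), ?_, by simpa using f0,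
    ?_, ?_⟩
  · intro i j hij hj
    by_cases a : j ≤ n
    · have b : i ≤ n := by omega
      simp only [a, b, if_true]
      exact hf i j hij a
    · by_cases b : i ≤ n
      · simp only [a, b, if_true, if_false]
        have hx : f i ∈ seg f 0 n := apply_mem_seg (Nat.zero_le _) b
        have hy : g (j - (n + 1)) ∈ seg g 0 m := apply_mem_seg (Nat.zero_le _) (by omega)
        refine ⟨fun e => Set.disjoint_left.1 hd hx (e ▸ hy), fun e' => ?_, fun e' => ?_⟩
        · obtain ⟨c1, c2⟩ := hc _ hx _ hy e'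
          have d1 := hf.inj b le_rfl (c1.trans fn.symm)
          have d2 := hg.inj (by omega) (Nat.zero_le _) (c2.trans g0.symm)
          omega
        · have d1 : i = n := by omega
          have d2 : j - (n + 1) = 0 := by omega
          rw [d1, d2, fn, g0]; exact e
      · simp only [a, b, if_false]
        have := hg (i - (n + 1)) (j - (n + 1)) (by omega) (by omega)
        refine ⟨this.1, ?_⟩
        rw [this.2]; omega
  · have : ¬ (n + 1 + m ≤ n) := by omega
    simp only [this, if_false]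
    rw [← gm]; congr 1; omega
  · ext x
    constructor
    · rintro (⟨k, -, k2, rfl⟩ | ⟨k, -, k2, rfl⟩)
      · exact ⟨k, Nat.zero_le _, by omega, by simp [k2]⟩
      · refine ⟨n + 1 + k, Nat.zero_le _, by omega, ?_⟩
        have : ¬ (n + 1 + k ≤ n) := by omega
        simp only [this, if_false]
        congr 1; omega
    · rintro ⟨k, -, k2, rfl⟩
      by_cases a : k ≤ n
      · simp only [a, if_true]; exact Or.inl (apply_mem_seg (Nat.zero_le _) a)
      · simp only [a, if_false]; exact Or.inr (apply_mem_seg (Nat.zero_le _) (by omega))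

/-- a new first vertex -/
theorem PS.cons {z u v : V} {X : Set V} (h : PS G u v X) (e : G.Adj z u) (hz : z ∉ X)
    (hc : ∀ b ∈ X, G.Adj z b → b = u) : PS G z v (insert z X) := by
  have := (PS.single (G := G) z).concat_adj h e (by simpa using hz) (by
    rintro a rfl b hb e'
    exact ⟨rfl, hc b hb e'⟩)
  simpa using this

/-- a new last vertex -/
theorem PS.snoc {z u v : V} {X : Set V} (h : PS G u v X) (e : G.Adj z v) (hz : z ∉ X)
    (hc : ∀ b ∈ X, G.Adj z b → b = v) : PS G u z (insert z X) :=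
  (h.symm.cons e hz hc).symm

/-! ### building holes -/

/-- two disjoint induced paths joined exactly by the two edges between their ends -/
theorem HoleS.of_two {u v u' v' : V} {X Y : Set V} (h1 : PS G u v X) (h2 : PS G u' v' Y)
    (eu : G.Adj u u') (ev : G.Adj v v') (hd : Disjoint X Y)
    (hc : ∀ x ∈ X, ∀ y ∈ Y, G.Adj x y → (x = u ∧ y = u') ∨ (x = v ∧ y = v'))
    (hbig : (u ≠ v ∧ u' ≠ v') ∨ (u ≠ v ∧ ¬ G.Adj u v) ∨ (u' ≠ v' ∧ ¬ G.Adj u' v')) :
    HoleS G (X ∪ Y) := by
  obtain ⟨n, f, hf, f0, fn, rfl⟩ := h1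
  obtain ⟨m, g, hg, g0, gm, rfl⟩ := h2
  have hn : u ≠ v → 0 < n := fun h => by
    by_contra c
    have : n = 0 := by omega
    subst this; exact h (f0.symm.trans fn)
  have hm : u' ≠ v' → 0 < m := fun h => by
    by_contra c
    have : m = 0 := by omega
    subst this; exact h (g0.symm.trans gm)
  have hn1 : ¬ G.Adj u v → n ≠ 1 := fun h c => by
    subst c; exact h (f0 ▸ fn ▸ hf.adj_succ (by omega))
  have hm1 : ¬ G.Adj u' v' → m ≠ 1 := fun h c => by
    subst c; exact h (g0 ▸ gm ▸ hg.adj_succ (by omega))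
  have hpos : 2 ≤ n + m := by
    rcases hbig with ⟨a, b⟩ | ⟨a, b⟩ | ⟨a, b⟩
    · have := hn a; have := hm b; omega
    · have := hn a; have := hn1 b; omega
    · have := hm a; have := hm1 b; omega
  refine ⟨n + m + 2, fun i => if i ≤ n then f i else g (n + m + 1 - i), by omega, ?_, ?_⟩
  · intro i j hij hj
    by_cases a : j ≤ n
    · have b : i ≤ n := by omega
      simp only [a, b, if_true]
      refine ⟨(hf i j hij a).1, ?_⟩
      rw [(hf i j hij a).2]; omega
    · by_cases b : i ≤ n
      · simp only [a, b, if_true, if_false]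
        have hx : f i ∈ seg f 0 n := apply_mem_seg (Nat.zero_le _) b
        have hy : g (n + m + 1 - j) ∈ seg g 0 m := apply_mem_seg (Nat.zero_le _) (by omega)
        refine ⟨fun e => Set.disjoint_left.1 hd hx (e ▸ hy), ⟨fun e => ?_, fun e => ?_⟩⟩
        · rcases hc _ hx _ hy e with ⟨c1, c2⟩ | ⟨c1, c2⟩
          · have d1 := hf.inj b (Nat.zero_le _) (c1.trans f0.symm)
            have d2 := hg.inj (by omega) (Nat.zero_le _) (c2.trans g0.symm)
            omega
          · have d1 := hf.inj b le_rfl (c1.trans fn.symm)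
            have d2 := hg.inj (by omega) le_rfl (c2.trans gm.symm)
            omega
        · rcases e with e | ⟨e1, e2⟩
          · have d1 : i = n := by omega
            have d2 : n + m + 1 - j = m := by omega
            rw [d1, d2, fn, gm]; exact ev
          · have d2 : n + m + 1 - j = 0 := by omega
            rw [e1, d2, f0, g0]; exact eu
      · simp only [a, b, if_false]
        refine ⟨hg.ne (by omega) (by omega) (by omega), ?_⟩
        rw [hg.adj_iff (by omega) (by omega)]; omega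
  · ext x
    constructor
    · rintro (⟨k, -, k2, rfl⟩ | ⟨k, -, k2, rfl⟩)
      · exact ⟨k, Nat.zero_le _, by omega, by simp [k2]⟩
      · refine ⟨n + m + 1 - k, Nat.zero_le _, by omega, ?_⟩
        have : ¬ (n + m + 1 - k ≤ n) := by omega
        simp only [this, if_false]
        congr 1; omega
    · rintro ⟨k, -, k2, rfl⟩
      by_cases a : k ≤ n
      · simp only [a, if_true]; exact Or.inl (apply_mem_seg (Nat.zero_le _) a)
      · simp only [a, if_false]; exact Or.inr (apply_mem_seg (Nat.zero_le _) (by omega))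

/-- an induced path with nonadjacent ends and a vertex seeing exactly the ends -/
theorem HoleS.of_cone {z u v : V} {X : Set V} (h : PS G u v X) (hne : u ≠ v) (hna : ¬ G.Adj u v)
    (hz : z ∉ X) (eu : G.Adj z u) (ev : G.Adj z v) (hc : ∀ b ∈ X, G.Adj z b → b = u ∨ b = v) :
    HoleS G (insert z X) := by
  have := HoleS.of_two (PS.single (G := G) z) h eu ev (by simpa using hz) (by
    rintro a rfl b hb e
    rcases hc b hb e with c | c
    · exact Or.inl ⟨rfl, c⟩
    · exact Or.inr ⟨rfl, c⟩) (Or.inr (Or.inr ⟨hne, hna⟩))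
  simpa using this

/-! ### periodic form -/

/-- a hole of length `n` as a periodic sequence -/
structure Cyc (G : SimpleGraph V) (g : ℕ → V) (n : ℕ) : Prop where
  four : 4 ≤ n
  per : ∀ i, g (i + n) = g i
  rel : ∀ i j, i < j → j < i + n → g i ≠ g j ∧ (G.Adj (g i) (g j) ↔ (j = i + 1 ∨ j + 1 = i + n))

theorem IsCyc.cyc {f : ℕ → V} {n : ℕ} (h : IsCyc G f n) (hn : 4 ≤ n) :
    Cyc G (fun i => f (i % n)) n := by
  refine ⟨hn, fun i => by simp, fun i j hij hj => ?_⟩
  have hi := Nat.mod_lt i (show 0 < n by omega)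
  obtain ⟨d, rfl⟩ : ∃ d, j = i + d := ⟨j - i, by omega⟩
  have hd : d < n := by omega
  have key : (i + d) % n = i % n + d ∨ (i + d) % n + n = i % n + d := by
    have e1 : (i + d) % n = (i % n + d) % n := by simp [Nat.add_mod]
    rw [e1]
    by_cases c : i % n + d < n
    · left; exact Nat.mod_eq_of_lt c
    · right
      rw [Nat.mod_eq_sub_mod (by omega), Nat.mod_eq_of_lt (by omega)]; omega
  have hj' := Nat.mod_lt (i + d) (show 0 < n by omega)
  show f (i % n) ≠ f ((i + d) % n) ∧ (G.Adj (f (i % n)) (f ((i + d) % n)) ↔ _)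
  rcases key with k | k
  · have := h (i % n) ((i + d) % n) (by omega) hj'
    refine ⟨this.1, ?_⟩
    rw [this.2]; omega
  · have := h ((i + d) % n) (i % n) (by omega) hi
    refine ⟨this.1.symm, ?_⟩
    rw [G.adj_comm, this.2]; omega

theorem Cyc.isCyc {g : ℕ → V} {n : ℕ} (h : Cyc G g n) : IsCyc G g n := by
  intro i j hij hj
  have := h.rel i j hij (by omega)
  refine ⟨this.1, ?_⟩
  rw [this.2]; omega

theorem Cyc.shift {g : ℕ → V} {n : ℕ} (h : Cyc G g n) (k : ℕ) : Cyc G (fun i => g (k + i)) n := by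
  refine ⟨h.four, fun i => ?_, fun i j hij hj => ?_⟩
  · show g (k + (i + n)) = g (k + i)
    rw [← Nat.add_assoc, h.per]
  · have := h.rel (k + i) (k + j) (by omega) (by omega)
    refine ⟨this.1, ?_⟩
    rw [this.2]; omega

theorem Cyc.mod {g : ℕ → V} {n : ℕ} (h : Cyc G g n) (i : ℕ) : g (i % n) = g i := by
  have : ∀ q r, g (r + n * q) = g r := by
    intro q
    induction q with
    | zero => simp
    | succ q ih => intro r; rw [Nat.mul_succ, ← Nat.add_assoc, h.per, ih]
  conv_rhs => rw [← Nat.mod_add_div i n]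
  rw [this]

theorem Cyc.mem {g : ℕ → V} {n : ℕ} (h : Cyc G g n) (i : ℕ) : g i ∈ seg g 0 (n - 1) := by
  have := Nat.mod_lt i (show 0 < n by have := h.four; omega)
  exact ⟨i % n, Nat.zero_le _, by omega, h.mod i⟩

theorem Cyc.seg_eq {g : ℕ → V} {n : ℕ} (h : Cyc G g n) :
    seg g 0 (n - 1) = Set.range g := by
  ext x
  constructor
  · rintro ⟨k, -, -, rfl⟩; exact ⟨k, rfl⟩
  · rintro ⟨k, rfl⟩; exact h.mem k

theorem Cyc.range_shift {g : ℕ → V} {n : ℕ} (h : Cyc G g n) (k : ℕ) :
    Set.range (fun i => g (k + i)) = Set.range g := by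
  ext x
  constructor
  · rintro ⟨i, rfl⟩; exact ⟨k + i, rfl⟩
  · rintro ⟨i, rfl⟩
    have h4 := h.four
    refine ⟨n * k + i - k, ?_⟩
    have : k ≤ n * k := Nat.le_mul_of_pos_left k (by omega)
    show g (k + (n * k + i - k)) = g i
    rw [show k + (n * k + i - k) = i + n * k by omega, ← h.mod, ← h.mod i]
    simp

/-- an arc with at most `n - 1` vertices is an induced path -/
theorem Cyc.isIP {g : ℕ → V} {n : ℕ} (h : Cyc G g n) (k : ℕ) :
    IsIP G (fun i => g (k + i)) (n - 2) := by
  intro i j hij hj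
  have h4 := h.four
  have := h.rel (k + i) (k + j) (by omega) (by omega)
  refine ⟨this.1, ?_⟩
  rw [this.2]; omega

theorem Cyc.holeS {g : ℕ → V} {n : ℕ} (h : Cyc G g n) : HoleS G (Set.range g) :=
  ⟨n, g, h.four, h.isCyc, h.seg_eq.symm⟩

theorem HoleS.exists_cyc {O : Set V} (h : HoleS G O) :
    ∃ n g, Cyc G g n ∧ O = Set.range g := by
  obtain ⟨n, f, hn, hf, rfl⟩ := h
  refine ⟨n, _, hf.cyc hn, ?_⟩
  ext x
  constructor
  · rintro ⟨k, -, k2, rfl⟩
    exact ⟨k, by simp only []; rw [Nat.mod_eq_of_lt (by omega)]⟩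
  · rintro ⟨k, rfl⟩
    have := Nat.mod_lt k (show 0 < n by omega)
    exact ⟨k % n, Nat.zero_le _, by omega, rfl⟩

/-- the periodic form starting at a prescribed vertex -/
theorem HoleS.exists_cyc_at {O : Set V} (h : HoleS G O) {x : V} (hx : x ∈ O) :
    ∃ n g, Cyc G g n ∧ O = Set.range g ∧ g 0 = x := by
  obtain ⟨n, g, hg, rfl⟩ := h.exists_cyc
  obtain ⟨k, rfl⟩ := hx
  exact ⟨n, _, hg.shift k, (hg.range_shift k).symm, rfl⟩

theorem Cyc.odd (hG : EHF G) {g : ℕ → V} {n : ℕ} (h : Cyc G g n) : Odd n :=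
  hG g n h.four h.isCyc

theorem HoleS.finite {O : Set V} (h : HoleS G O) : O.Finite := by
  obtain ⟨n, f, -, -, rfl⟩ := h
  refine ((Set.finite_Icc 0 (n - 1)).image f).subset ?_
  rintro x ⟨k, k1, k2, rfl⟩
  exact ⟨k, ⟨k1, k2⟩, rfl⟩

/-! ### counting -/

theorem count_parity (C : ℕ → Prop) [DecidablePred C] (φ : ℕ → ℕ) (h0 : C 0) :
    ∀ r, C r → (∀ i j, i < j → j ≤ r → C i → C j → (∀ k, i < k → k < j → ¬ C k) →
      Odd (φ i + φ j)) → Even (((Finset.range r).filter C).card + φ 0 + φ r) := by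
  intro r
  induction r using Nat.strong_induction_on with
  | _ r ih =>
    intro hr H
    by_cases r0 : r = 0
    · subst r0; simp
    obtain ⟨a, b, -, hb, -, cb, -, hl⟩ :=
      exists_first_last (p := C) (n := r - 1) ⟨0, Nat.zero_le _, h0⟩
    have e1 := ih b (by omega) cb fun i j hij hj => H i j hij (by omega)
    have e2 := H b r (by omega) le_rfl cb hr fun k k1 k2 => hl k k1 (by omega)
    have e3 : (Finset.range r).filter C = insert b ((Finset.range b).filter C) := by
      ext k
      simp only [Finset.mem_filter, Finset.mem_range, Finset.mem_insert]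
      constructor
      · rintro ⟨k1, k2⟩
        by_cases c : b < k
        · exact (hl k c (by omega) k2).elim
        · by_cases d : k = b
          · exact Or.inl d
          · exact Or.inr ⟨by omega, k2⟩
      · rintro (rfl | ⟨k1, k2⟩)
        · exact ⟨by omega, cb⟩
        · exact ⟨by omega, k2⟩
    rw [e3, Finset.card_insert_of_notMem (by simp)]
    rw [Nat.even_iff] at e1 ⊢
    rw [Nat.odd_iff] at e2
    omega

theorem Cyc.ncard_eq {g : ℕ → V} {n : ℕ} (h : Cyc G g n) (p : V → Prop) [DecidablePred p] :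
    {x | x ∈ Set.range g ∧ p x}.ncard = ((Finset.range n).filter fun i => p (g i)).card := by
  classical
  have e : {x | x ∈ Set.range g ∧ p x} =
      ((((Finset.range n).filter fun i => p (g i)).image g : Finset V) : Set V) := by
    ext x
    simp only [Set.mem_setOf_eq, Finset.coe_image, Set.mem_image, Finset.mem_coe,
      Finset.mem_filter, Finset.mem_range]
    constructor
    · rintro ⟨⟨k, rfl⟩, hp⟩
      have := Nat.mod_lt k (show 0 < n by have := h.four; omega)
      exact ⟨k % n, ⟨this, by rw [h.mod]; exact hp⟩, h.mod k⟩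
    · rintro ⟨k, ⟨-, hp⟩, rfl⟩
      exact ⟨⟨k, rfl⟩, hp⟩
  rw [e, Set.ncard_coe_finset, Finset.card_image_of_injOn]
  intro i hi j hj e
  simp only [Finset.coe_filter, Finset.mem_range, Set.mem_setOf_eq] at hi hj
  by_contra c
  rcases Nat.lt_or_gt_of_ne c with c | c
  · exact (h.rel i j c (by omega)).1 e
  · exact (h.rel j i c (by omega)).1 e.symm

/-- if no position strictly between `i` and `j = i + n - 1` satisfies `p`, only these two can -/
theorem Cyc.only_two {g : ℕ → V} {n i j : ℕ} (h : Cyc G g n) {p : V → Prop} (hj : j + 1 = i + n)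
    (hk : ∀ k, i < k → k < j → ¬ p (g k)) {x : V} (hx : x ∈ Set.range g) (px : p x) :
    x = g i ∨ x = g j := by
  rw [← h.range_shift i, ← (h.shift i).seg_eq] at hx
  obtain ⟨k, -, k2, rfl⟩ := hx
  have h4 := h.four
  by_cases a : k = 0
  · subst a; left; rfl
  by_cases b : k = n - 1
  · right; show g (i + k) = g j; congr 1; omega
  exact (hk (i + k) (by omega) (by omega) px).elim

theorem Cyc.only_one {g : ℕ → V} {n i : ℕ} (h : Cyc G g n) {p : V → Prop}
    (hk : ∀ k, i < k → k < i + n → ¬ p (g k)) {x : V} (hx : x ∈ Set.range g) (px : p x) :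
    x = g i := by
  rw [← h.range_shift i, ← (h.shift i).seg_eq] at hx
  obtain ⟨k, -, k2, rfl⟩ := hx
  have h4 := h.four
  by_cases a : k = 0
  · subst a; rfl
  exact (hk (i + k) (by omega) (by omega) px).elim

theorem Cyc.sector_odd (hG : EHF G) {g : ℕ → V} {n i j : ℕ} (h : Cyc G g n) {z : V}
    (hz : z ∉ Set.range g) (hij : i < j) (hj : j + 2 ≤ i + n) (zi : G.Adj z (g i))
    (zj : G.Adj z (g j)) (hk : ∀ k, i < k → k < j → ¬ G.Adj z (g k)) : Odd (i + j) := by
  have := hG.sector_odd (h.isIP i) (i := 0) (j := j - i) (z := z) (by omega) (by omega) zi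
    (by show G.Adj z (g (i + (j - i))); rw [show i + (j - i) = j by omega]; exact zj)
    fun k k1 k2 => ⟨fun e => hz ⟨_, e.symm⟩, hk (i + k) (by omega) (by omega)⟩
  rw [Nat.odd_iff] at this ⊢
  omega

/-- (K) the number of neighbours on a hole is odd, unless there are none or they form an edge -/
theorem EHF.nb_odd (hG : EHF G) {O : Set V} (hO : HoleS G O) {v : V} (hv : v ∉ O)
    (hs : Sees G v O) (ht : ¬ Tri G O v) : Odd (Nb G O v).ncard := by
  classical
  obtain ⟨x, hx, e⟩ := hs
  obtain ⟨n, g, hg, rfl, rfl⟩ := hO.exists_cyc_at hx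
  have h4 := hg.four
  have hn := hg.odd hG
  have e0 : g n = g 0 := by simpa using hg.per 0
  by_cases one : ∀ k, 0 < k → k < n → ¬ G.Adj v (g k)
  · have : Nb G (Set.range g) v = {g 0} := by
      ext y
      constructor
      · rintro ⟨hy, ey⟩
        exact hg.only_one (i := 0) (p := fun y => G.Adj v y) (by simpa using one) hy ey
      · rintro rfl; exact ⟨⟨0, rfl⟩, e⟩
    rw [this, Set.ncard_singleton]; exact odd_one
  have := count_parity (fun i => G.Adj v (g i)) id e n (by simpa [e0] using e) (by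
    intro i j hij hj ci cj hk
    by_cases c : j + 2 ≤ i + n
    · exact hg.sector_odd hG hv hij c ci cj hk
    by_cases d : j + 1 = i + n
    · refine (ht ⟨g i, g j, ((hg.rel i j hij (by omega)).2).2 (Or.inr d), ?_⟩).elim
      ext y
      constructor
      · rintro ⟨hy, ey⟩
        exact hg.only_two (p := fun y => G.Adj v y) d hk hy ey
      · rintro (rfl | rfl)
        · exact ⟨⟨_, rfl⟩, ci⟩
        · exact ⟨⟨_, rfl⟩, cj⟩
    · have i0 : i = 0 := by omega
      have jn : j = n := by omega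
      subst i0 jn
      exact (one hk).elim)
  have e1 := hg.ncard_eq (fun y => G.Adj v y)
  show Odd {x | x ∈ Set.range g ∧ G.Adj v x}.ncard
  rw [e1]
  rw [Nat.even_iff] at this
  rw [Nat.odd_iff] at hn ⊢
  simp only [id] at this
  omega

theorem Tri.ncard {O : Set V} {v : V} (h : Tri G O v) : (Nb G O v).ncard = 2 := by
  obtain ⟨a, b, e, h⟩ := h
  rw [h, Set.ncard_pair e.ne]

theorem Tri.sees {O : Set V} {v : V} (h : Tri G O v) : Sees G v O := by
  obtain ⟨a, b, -, h⟩ := h
  have : a ∈ Nb G O v := by rw [h]; exact Or.inl rfl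
  exact ⟨a, this.1, this.2⟩

theorem EHF.tri_iff_even (hG : EHF G) {O : Set V} (hO : HoleS G O) {v : V} (hv : v ∉ O)
    (hs : Sees G v O) : Tri G O v ↔ Even (Nb G O v).ncard := by
  constructor
  · intro h; rw [h.ncard]; exact even_two
  · intro h
    by_contra c
    exact (Nat.not_odd_iff_even.2 h) (hG.nb_odd hO hv hs c)

/-- a joined pair gives an induced path whose interior is anticomplete to the hole -/
theorem Joined.exists_ipc {O : Set V} {e f : V} (h : Joined G O e f) :
    ∃ l X, IPc G e f l (insert e (insert f X)) ∧ Anti G X O := by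
  rcases h with h | ⟨X, hX, hA, he, hf⟩
  · exact ⟨1, ∅, (IP.of_adj h ∅).toIPc, anti_empty_left⟩
  · obtain ⟨l, hl⟩ := hX.exists_ip_sees he hf
    exact ⟨l, X, hl.toIPc, hA⟩

theorem Cyc.mixed_odd (hG : EHF G) {g : ℕ → V} {n i j l : ℕ} (h : Cyc G g n) {e f : V}
    {X : Set V} (he : e ∉ Set.range g) (hf : f ∉ Set.range g)
    (hp : IPc G e f l (insert e (insert f X))) (hA : Anti G X (Set.range g)) (hij : i < j)
    (hj : j + 2 ≤ i + n) (ei : G.Adj e (g i)) (fj : G.Adj f (g j)) (fi : ¬ G.Adj f (g i))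
    (ej : ¬ G.Adj e (g j)) (hk : ∀ k, i < k → k < j → ¬ G.Adj e (g k) ∧ ¬ G.Adj f (g k)) :
    Odd (i + j + l) := by
  have a1 := (h.isIP i).ipc_seg (i := 0) (j := j - i) (Nat.zero_le _) (by omega)
  have ej' : g (i + (j - i)) = g j := by congr 1; omega
  have := hG.two_arcs a1 hp ei.symm (by show G.Adj (g (i + (j - i))) f; rw [ej']; exact fj.symm)
    ?_ ?_ (by omega)
  · rw [Nat.odd_iff] at this ⊢
    omega
  · rw [Set.disjoint_left]
    rintro x ⟨k, -, -, rfl⟩ (hx | hx | hx)
    · exact he ⟨_, hx⟩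
    · exact hf ⟨_, hx⟩
    · exact hA.notMem hx ⟨_, rfl⟩
  · rintro x ⟨k, -, k2, rfl⟩ y hy a
    rcases hy with rfl | rfl | hy
    · left
      refine ⟨?_, rfl⟩
      by_cases c : k = 0
      · rw [c]
      by_cases d : k = j - i
      · subst d; exact (ej (ej' ▸ a.symm)).elim
      exact ((hk (i + k) (by omega) (by omega)).1 a.symm).elim
    · right
      refine ⟨?_, rfl⟩
      by_cases d : k = j - i
      · rw [d]
      by_cases c : k = 0
      · subst c; exact (fi a.symm).elim
      exact ((hk (i + k) (by omega) (by omega)).2 a.symm).elim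
    · exact (hA.not_adj hy ⟨_, rfl⟩ a.symm).elim

/-- (PAIR), counting form -/
theorem EHF.pair_odd (hG : EHF G) {O : Set V} (hO : HoleS G O) {e f : V} (he : e ∉ O)
    (hf : f ∉ O) (hJ : Joined G O e f) (se : Sees G e O) (sf : Sees G f O)
    (hd : ∀ x ∈ O, G.Adj e x → ¬ G.Adj f x)
    (hne : ∀ a b, G.Adj a b → Nb G O e = {a} → Nb G O f ≠ {b}) :
    Odd ((Nb G O e).ncard + (Nb G O f).ncard) := by
  classical
  obtain ⟨l, X, hp, hA⟩ := hJ.exists_ipc
  have hp' : IPc G f e l (insert f (insert e X)) := by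
    rw [Set.insert_comm]; exact hp.symm
  have hfin := hO.finite
  obtain ⟨x, hx, ex⟩ := se
  obtain ⟨n, g, hg, rfl, rfl⟩ := hO.exists_cyc_at hx
  have h4 := hg.four
  have hn := hg.odd hG
  have e0 : g n = g 0 := by simpa using hg.per 0
  have f0 : ¬ G.Adj f (g 0) := hd _ hx ex
  have se : Sees G e (Set.range g) := ⟨_, hx, ex⟩
  have := count_parity (fun i => G.Adj e (g i) ∨ G.Adj f (g i))
    (fun i => i + if G.Adj f (g i) then l else 0) (Or.inl ex) n (by simp [e0, ex]) (by
    intro i j hij hj ci cj hk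
    have hk1 : ∀ k, i < k → k < j → ¬ G.Adj e (g k) := fun k a b c => hk k a b (Or.inl c)
    have hk2 : ∀ k, i < k → k < j → ¬ G.Adj f (g k) := fun k a b c => hk k a b (Or.inr c)
    have di := hd (g i) ⟨_, rfl⟩
    have dj := hd (g j) ⟨_, rfl⟩
    by_cases c : j + 2 ≤ i + n
    · by_cases fi : G.Adj f (g i) <;> by_cases fj : G.Adj f (g j) <;>
        simp only [fi, fj, if_true, if_false]
      · have := hg.sector_odd hG hf hij c fi fj hk2
        rw [Nat.odd_iff] at this ⊢; omega
      · have := hg.mixed_odd hG hf he hp' hA hij c fi (cj.resolve_right fj) (fun a => di a fi) fj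
          fun k a b => ⟨hk2 k a b, hk1 k a b⟩
        rw [Nat.odd_iff] at this ⊢; omega
      · have := hg.mixed_odd hG he hf hp hA hij c (ci.resolve_right fi) fj fi (fun a => dj a fj)
          fun k a b => ⟨hk1 k a b, hk2 k a b⟩
        rw [Nat.odd_iff] at this ⊢; omega
      · have := hg.sector_odd hG he hij c (ci.resolve_right fi) (cj.resolve_right fj) hk1
        rw [Nat.odd_iff] at this ⊢; omega
    exfalso
    obtain ⟨y, hy, ey⟩ := se
    obtain ⟨y', hy', fy'⟩ := sf
    have nyy : y ≠ y' := fun c => hd y hy ey (c ▸ fy')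
    by_cases d : j + 1 = i + n
    · have aij : G.Adj (g i) (g j) := ((hg.rel i j hij (by omega)).2).2 (Or.inr d)
      have o1 : ∀ w ∈ Set.range g, G.Adj e w → w = g i ∨ w = g j := fun w hw a =>
        hg.only_two (p := fun y => G.Adj e y) d hk1 hw a
      have o2 : ∀ w ∈ Set.range g, G.Adj f w → w = g i ∨ w = g j := fun w hw a =>
        hg.only_two (p := fun y => G.Adj f y) d hk2 hw a
      have ayy : G.Adj y y' := by
        rcases o1 y hy ey with a | a <;> rcases o2 y' hy' fy' with b | b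
        · exact (nyy (a.trans b.symm)).elim
        · rw [a, b]; exact aij
        · rw [a, b]; exact aij.symm
        · exact (nyy (a.trans b.symm)).elim
      refine hne y y' ayy ?_ ?_
      · ext w
        constructor
        · rintro ⟨hw, a⟩
          have nw : w ≠ y' := fun c => hd w hw a (c ▸ fy')
          rcases o1 y hy ey with a1 | a1 <;> rcases o2 y' hy' fy' with b | b <;>
            rcases o1 w hw a with c | c <;> simp_all
        · rintro rfl; exact ⟨hy, ey⟩
      · ext w
        constructor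
        · rintro ⟨hw, a⟩
          have nw : w ≠ y := fun c => hd y hy ey (c ▸ a)
          rcases o1 y hy ey with a1 | a1 <;> rcases o2 y' hy' fy' with b | b <;>
            rcases o2 w hw a with c | c <;> simp_all
        · rintro rfl; exact ⟨hy', fy'⟩
    · have i0 : i = 0 := by omega
      have jn : j = n := by omega
      subst i0 jn
      have := hg.only_one (i := 0) (p := fun y => G.Adj f y) (by simpa using hk2) hy' fy'
      exact f0 (this ▸ fy'))
  have e1 := hg.ncard_eq (fun y => G.Adj e y ∨ G.Adj f y)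
  have e2 : {x | x ∈ Set.range g ∧ (G.Adj e x ∨ G.Adj f x)} =
      Nb G (Set.range g) e ∪ Nb G (Set.range g) f := by
    ext w; simp only [Set.mem_setOf_eq, Set.mem_union, mem_Nb]; tauto
  rw [e2, Set.ncard_union_eq (Set.disjoint_left.2 fun w a b => hd w a.1 a.2 b.2)
    (hfin.subset fun w a => a.1) (hfin.subset fun w a => a.1)] at e1
  rw [e1]
  simp only [e0, f0, if_false] at this
  rw [Nat.even_iff] at this
  rw [Nat.odd_iff] at hn ⊢
  omega

/-- (PAIR) exactly one of the two has an edge as its neighbourhood -/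
theorem EHF.pair (hG : EHF G) {O : Set V} (hO : HoleS G O) {e f : V} (he : e ∉ O)
    (hf : f ∉ O) (hJ : Joined G O e f) (se : Sees G e O) (sf : Sees G f O)
    (hd : ∀ x ∈ O, G.Adj e x → ¬ G.Adj f x)
    (hne : ∀ a b, G.Adj a b → Nb G O e = {a} → Nb G O f ≠ {b}) :
    Tri G O e ↔ ¬ Tri G O f := by
  have := hG.pair_odd hO he hf hJ se sf hd hne
  rw [hG.tri_iff_even hO he se, hG.tri_iff_even hO hf sf, Nat.even_iff, Nat.even_iff]
  rw [Nat.odd_iff] at this
  omega

theorem not_tri_of_single {O : Set V} {v y : V} (h : Nb G O v = {y}) : ¬ Tri G O v := by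
  intro t
  have := t.ncard
  rw [h, Set.ncard_singleton] at this
  omega

theorem not_tri_of_nonadj {O : Set V} {v x y : V} (hx : x ∈ Nb G O v) (hy : y ∈ Nb G O v)
    (hne : x ≠ y) (hna : ¬ G.Adj x y) : ¬ Tri G O v := by
  rintro ⟨a, b, e, h⟩
  rw [h] at hx hy
  rcases hx with rfl | rfl <;> rcases hy with rfl | rfl
  · exact hne rfl
  · exact hna e
  · exact hna e.symm
  · exact hne rfl

theorem not_tri_of_three {O : Set V} {v x y w : V} (hx : x ∈ Nb G O v) (hy : y ∈ Nb G O v)
    (hw : w ∈ Nb G O v) (n1 : x ≠ y) (n2 : x ≠ w) (n3 : y ≠ w) : ¬ Tri G O v := by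
  rintro ⟨a, b, e, h⟩
  rw [h] at hx hy hw
  rcases hx with rfl | rfl <;> rcases hy with hy | hy <;> rcases hw with hw | hw <;> simp_all

/-- two nonadjacent neighbours on a hole are never the only ones -/
theorem EHF.not_two (hG : EHF G) {O : Set V} (hO : HoleS G O) {v x y : V} (hv : v ∉ O)
    (hne : x ≠ y) (hna : ¬ G.Adj x y) : Nb G O v ≠ {x, y} := by
  intro h
  have hx : x ∈ Nb G O v := by rw [h]; exact Or.inl rfl
  have hy : y ∈ Nb G O v := by rw [h]; exact Or.inr rfl
  have := hG.nb_odd hO hv ⟨x, hx.1, hx.2⟩ (not_tri_of_nonadj hx hy hne hna)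
  rw [h, Set.ncard_pair hne] at this
  exact absurd this (by decide)

/-- four neighbours on a hole are impossible -/
theorem EHF.not_four (hG : EHF G) {O : Set V} (hO : HoleS G O) {v a b c d : V} (hv : v ∉ O)
    (ab : a ≠ b) (ac : a ≠ c) (ad : a ≠ d) (bc : b ≠ c) (bd : b ≠ d) (cd : c ≠ d) :
    Nb G O v ≠ {a, b, c, d} := by
  intro h
  have ha : a ∈ Nb G O v := by rw [h]; simp
  have hb : b ∈ Nb G O v := by rw [h]; simp
  have hc : c ∈ Nb G O v := by rw [h]; simp
  have := hG.nb_odd hO hv ⟨a, ha.1, ha.2⟩ (not_tri_of_three ha hb hc ab ac bc)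
  rw [h, Set.ncard_insert_of_notMem (by simp [ab, ac, ad]),
    Set.ncard_insert_of_notMem (by simp [bc, bd]), Set.ncard_pair cd] at this
  exact absurd this (by decide)

end Pool.Agent.Ehf
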