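import Pool.Agent.MP_3ad207_lc.H46.K3c
import Pool.Agent.MP_3ad207_lc.H41.T1

/-! Zone lemmas for the non-star case: K4 as an induced minor, K4 with a triangle, PURE, PICK,
the tooth-wall lemma. -/

set_option autoImplicit false

namespace Pool.Agent.Ehf

variable {V : Type*} {G : SimpleGraph V}

/-- a connected set touching two anticomplete sets contains a joint vertex and a rest that can be
absorbed by the second set -/
theorem Conn.exists_joint {J B B' : Set V} (hJ : Conn G J) (hB' : Conn G B') (t : Touch G J B)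
    (t' : Touch G J B') (a : Anti G B B') :
    ∃ u R, ({u} : Set V) ⊆ J ∧ R ⊆ J ∧ Sees G u B ∧ Anti G R B ∧ Conn G (B' ∪ R) ∧
      u ∈ cN G (B' ∪ R) ∧ u ∉ B ∧ u ∉ B' ∧ u ∉ R ∧ Disjoint R B' := by
  obtain ⟨n, f, hf, fm, s0, sn, nA, nB⟩ := hJ.extract t t' a
  have hr : Row G B B' f n := ⟨hf, Or.inr s0, Or.inr sn, nA, nB⟩
  have hc := hr.conn_fin (Nat.zero_le n) hB' le_rfl
  refine ⟨f 0, seg f (0 + 1) n, by simpa using (fm 0 (Nat.zero_le _)).1,
    seg_subset fun k _ hk => (fm k hk).1, s0, (hr.antiA (by omega) le_rfl).symm, hc.1, hc.2,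
    (fm 0 (Nat.zero_le _)).2.1, (fm 0 (Nat.zero_le _)).2.2, ?_, ?_⟩
  · rw [hf.mem_seg_iff le_rfl (Nat.zero_le _)]; omega
  · rw [Set.disjoint_left]
    rintro x ⟨k, -, hk, rfl⟩
    exact (fm k hk).2.2

theorem Conn.un_common {B R R' : Set V} (h : Conn G (B ∪ R)) (h' : Conn G (B ∪ R'))
    (hB : B.Nonempty) : Conn G (B ∪ R ∪ R') := by
  obtain ⟨x, hx⟩ := hB
  have := h.un h' (Touch.of_mem (Or.inl hx) (Or.inl hx))
  have e : B ∪ R ∪ (B ∪ R') = B ∪ R ∪ R' := by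
    ext y; simp only [Set.mem_union]; tauto
  rwa [e] at this

/-- (K4IM) four zones and six joint sets -/
theorem EHF.k4im (hG : EHF G) {B₁ B₂ B₃ B₄ J₁₂ J₁₃ J₁₄ J₂₃ J₂₄ J₃₄ : Set V}
    (c1 : Conn G B₁) (c2 : Conn G B₂) (c3 : Conn G B₃) (c4 : Conn G B₄)
    (a12 : Anti G B₁ B₂) (a13 : Anti G B₁ B₃) (a14 : Anti G B₁ B₄) (a23 : Anti G B₂ B₃)
    (a24 : Anti G B₂ B₄) (a34 : Anti G B₃ B₄)
    (d12 : Conn G J₁₂) (d13 : Conn G J₁₃) (d14 : Conn G J₁₄) (d23 : Conn G J₂₃)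
    (d24 : Conn G J₂₄) (d34 : Conn G J₃₄)
    (x1213 : Anti G J₁₂ J₁₃) (x1214 : Anti G J₁₂ J₁₄) (x1223 : Anti G J₁₂ J₂₃)
    (x1224 : Anti G J₁₂ J₂₄) (x1234 : Anti G J₁₂ J₃₄) (x1314 : Anti G J₁₃ J₁₄)
    (x1323 : Anti G J₁₃ J₂₃) (x1324 : Anti G J₁₃ J₂₄) (x1334 : Anti G J₁₃ J₃₄)
    (x1423 : Anti G J₁₄ J₂₃) (x1424 : Anti G J₁₄ J₂₄) (x1434 : Anti G J₁₄ J₃₄)
    (x2324 : Anti G J₂₃ J₂₄) (x2334 : Anti G J₂₃ J₃₄) (x2434 : Anti G J₂₄ J₃₄)
    (e121 : Touch G J₁₂ B₁) (e122 : Touch G J₁₂ B₂) (j123 : Anti G J₁₂ B₃) (j124 : Anti G J₁₂ B₄)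
    (e131 : Touch G J₁₃ B₁) (e133 : Touch G J₁₃ B₃) (j132 : Anti G J₁₃ B₂) (j134 : Anti G J₁₃ B₄)
    (e141 : Touch G J₁₄ B₁) (e144 : Touch G J₁₄ B₄) (j142 : Anti G J₁₄ B₂) (j143 : Anti G J₁₄ B₃)
    (e232 : Touch G J₂₃ B₂) (e233 : Touch G J₂₃ B₃) (j231 : Anti G J₂₃ B₁) (j234 : Anti G J₂₃ B₄)
    (e242 : Touch G J₂₄ B₂) (e244 : Touch G J₂₄ B₄) (j241 : Anti G J₂₄ B₁) (j243 : Anti G J₂₄ B₃)
    (e343 : Touch G J₃₄ B₃) (e344 : Touch G J₃₄ B₄) (j341 : Anti G J₃₄ B₁)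
    (j342 : Anti G J₃₄ B₂) : False := by
  obtain ⟨u12, R12, m12, s12, v12, t12, k12, w12, -⟩ := d12.exists_joint c2 e121 e122 a12
  obtain ⟨u13, R13, m13, s13, v13, t13, k13, w13, -⟩ := d13.exists_joint c3 e131 e133 a13
  obtain ⟨u14, R14, m14, s14, v14, t14, k14, w14, -⟩ := d14.exists_joint c4 e141 e144 a14
  obtain ⟨u23, R23, m23, s23, v23, t23, k23, w23, -⟩ := d23.exists_joint c3 e232 e233 a23
  obtain ⟨u24, R24, m24, s24, v24, t24, k24, w24, -⟩ := d24.exists_joint c4 e242 e244 a24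
  obtain ⟨u34, R34, m34, s34, v34, t34, k34, w34, -⟩ := d34.exists_joint c4 e343 e344 a34
  have K3 : Conn G (B₃ ∪ R13 ∪ R23) := k13.un_common k23 c3.nonempty
  have K4 : Conn G (B₄ ∪ R14 ∪ R24 ∪ R34) := by
    have h1 := k14.un_common k24 c4.nonempty
    have h2 := k14.un_common k34 c4.nonempty
    have := h1.un h2 (Touch.of_mem (Or.inl (Or.inl c4.nonempty.some_mem))
      (Or.inl (Or.inl c4.nonempty.some_mem)))
    have e : B₄ ∪ R14 ∪ R24 ∪ (B₄ ∪ R14 ∪ R34) = B₄ ∪ R14 ∪ R24 ∪ R34 := by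
      ext y; simp only [Set.mem_union]; tauto
    rwa [e] at this
  refine hG.k4 (B₁ := B₁) (B₂ := B₂ ∪ R12) (B₃ := B₃ ∪ R13 ∪ R23) (B₄ := B₄ ∪ R14 ∪ R24 ∪ R34)
    (u₁₂ := u12) (u₁₃ := u13) (u₁₄ := u14) (u₂₃ := u23) (u₂₄ := u24) (u₃₄ := u34)
    ((a12).union_right ((t12).symm))
    (((a13).union_right ((t13).symm)).union_right ((j231.mono s23 le_rfl).symm))
    ((((a14).union_right ((t14).symm)).union_right ((j241.mono s24
      le_rfl).symm)).union_right ((j341.mono s34 le_rfl).symm))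
    ((((a23).union_right ((j132.mono s13 le_rfl).symm)).union_right ((t23).symm)).union_left
      (((j123.mono s12 le_rfl).union_right (x1213.mono s12 s13)).union_right (x1223.mono s12
      s23)))
    (((((a24).union_right ((j142.mono s14 le_rfl).symm)).union_right
      ((t24).symm)).union_right ((j342.mono s34 le_rfl).symm)).union_left ((((j124.mono s12
      le_rfl).union_right (x1214.mono s12 s14)).union_right (x1224.mono s12
      s24)).union_right (x1234.mono s12 s34)))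
    ((((((a34).union_right ((j143.mono s14 le_rfl).symm)).union_right ((j243.mono s24
      le_rfl).symm)).union_right ((t34).symm)).union_left ((((j134.mono s13
      le_rfl).union_right (x1314.mono s13 s14)).union_right (x1324.mono s13
      s24)).union_right (x1334.mono s13 s34))).union_left ((((j234.mono s23
      le_rfl).union_right (x1423.symm.mono s23 s14)).union_right (x2324.mono s23
      s24)).union_right (x2334.mono s23 s34)))
    ((((j123.mono m12 le_rfl).union_right (x1213.mono m12 s13)).union_right (x1223.mono m12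
      s23)).union_right ((((j124.mono m12 le_rfl).union_right (x1214.mono m12
      s14)).union_right (x1224.mono m12 s24)).union_right (x1234.mono m12 s34)))
    (((j132.mono m13 le_rfl).union_right (x1213.symm.mono m13 s12)).union_right
      ((((j134.mono m13 le_rfl).union_right (x1314.mono m13 s14)).union_right (x1324.mono
      m13 s24)).union_right (x1334.mono m13 s34)))
    (((j142.mono m14 le_rfl).union_right (x1214.symm.mono m14 s12)).union_right (((j143.mono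
      m14 le_rfl).union_right (x1314.symm.mono m14 s13)).union_right (x1423.mono m14 s23)))
    ((j231.mono m23 le_rfl).union_right ((((j234.mono m23 le_rfl).union_right
      (x1423.symm.mono m23 s14)).union_right (x2324.mono m23 s24)).union_right (x2334.mono
      m23 s34)))
    ((j241.mono m24 le_rfl).union_right (((j243.mono m24 le_rfl).union_right
      (x1324.symm.mono m24 s13)).union_right (x2324.symm.mono m24 s23)))
    ((j341.mono m34 le_rfl).union_right ((j342.mono m34 le_rfl).union_right (x1234.symm.mono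
      m34 s12)))
    (x1234.mono m12 m34)
    (x1324.mono m13 m24)
    (x1423.mono m14 m23)
    ⟨(x1213.mono m12 m13).ne rfl rfl, (x1214.mono m12 m14).ne rfl rfl, (x1314.mono m13
      m14).ne rfl rfl⟩
    ⟨(x1223.mono m12 m23).ne rfl rfl, (x1224.mono m12 m24).ne rfl rfl, (x2324.mono m23
      m24).ne rfl rfl⟩
    ⟨(x1323.mono m13 m23).ne rfl rfl, (x1334.mono m13 m34).ne rfl rfl, (x2334.mono m23
      m34).ne rfl rfl⟩
    ⟨(x1424.mono m14 m24).ne rfl rfl, (x1434.mono m14 m34).ne rfl rfl, (x2434.mono m24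
      m34).ne rfl rfl⟩
    (Zone.of_sees c1 v12 v13 v14)
    (Zone.of_conn k12 w12 (Or.inr (v23.mono Set.subset_union_left))
      (Or.inr (v24.mono Set.subset_union_left)))
    (Zone.of_conn K3 (cN_mono Set.subset_union_left w13) (cN_mono ?_ w23)
      (Or.inr (v34.mono (Set.subset_union_left.trans Set.subset_union_left))))
    (Zone.of_conn K4 (cN_mono (Set.subset_union_left.trans Set.subset_union_left) w14)
      (cN_mono ?_ w24) (cN_mono ?_ w34))
  all_goals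
    intro y hy
    simp only [Set.mem_union] at hy ⊢
    tauto

/-- (K4T) three zones, a triangle `b b' e` as the fourth zone, three joint sets -/
theorem EHF.k4t (hG : EHF G) {B₁ B₂ B₄ J₁₂ J₁₄ J₂₄ : Set V} {b b' e : V}
    (bb : G.Adj b b') (be : G.Adj b e) (be' : G.Adj b' e)
    (c1 : Conn G B₁) (c2 : Conn G B₂) (c4 : Conn G B₄)
    (a12 : Anti G B₁ B₂) (a14 : Anti G B₁ B₄) (a24 : Anti G B₂ B₄)
    (b1 : Sees G b B₁) (b2 : Anti G {b} B₂) (b4 : Anti G {b} B₄)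
    (p2 : Sees G b' B₂) (p1 : Anti G {b'} B₁) (p4 : Anti G {b'} B₄)
    (q4 : Sees G e B₄) (q1 : Anti G {e} B₁) (q2 : Anti G {e} B₂)
    (d12 : Conn G J₁₂) (d14 : Conn G J₁₄) (d24 : Conn G J₂₄)
    (x1 : Anti G J₁₂ J₁₄) (x2 : Anti G J₁₂ J₂₄) (x3 : Anti G J₁₄ J₂₄)
    (y12 : Anti G J₁₂ {b, b', e}) (y14 : Anti G J₁₄ {b, b', e}) (y24 : Anti G J₂₄ {b, b', e})
    (e121 : Touch G J₁₂ B₁) (e122 : Touch G J₁₂ B₂) (j124 : Anti G J₁₂ B₄)
    (e141 : Touch G J₁₄ B₁) (e144 : Touch G J₁₄ B₄) (j142 : Anti G J₁₄ B₂)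
    (e242 : Touch G J₂₄ B₂) (e244 : Touch G J₂₄ B₄) (j241 : Anti G J₂₄ B₁) : False := by
  obtain ⟨u12, R12, m12, s12, v12, t12, k12, w12, -⟩ := d12.exists_joint c2 e121 e122 a12
  obtain ⟨u14, R14, m14, s14, v14, t14, k14, w14, -⟩ := d14.exists_joint c4 e141 e144 a14
  obtain ⟨u24, R24, m24, s24, v24, t24, k24, w24, -⟩ := d24.exists_joint c4 e242 e244 a24
  have K4 : Conn G (B₄ ∪ R14 ∪ R24) := k14.un_common k24 c4.nonempty
  have sb : ({b} : Set V) ⊆ {b, b', e} := by simp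
  have sb' : ({b'} : Set V) ⊆ {b, b', e} := by simp
  have se : ({e} : Set V) ⊆ {b, b', e} := by simp
  refine hG.k4 (B₁ := B₁) (B₂ := B₂ ∪ R12) (B₃ := ∅) (B₄ := B₄ ∪ R14 ∪ R24)
    (u₁₂ := u12) (u₁₃ := b) (u₁₄ := u14) (u₂₃ := b') (u₂₄ := u24) (u₃₄ := e)
    (a12.union_right t12.symm) anti_empty_right
    ((a14.union_right t14.symm).union_right (j241.mono s24 le_rfl).symm) anti_empty_right
    (((a24.union_right (j142.mono s14 le_rfl).symm).union_right t24.symm).union_left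
      (((j124.mono s12 le_rfl).union_right (x1.mono s12 s14)).union_right (x2.mono s12 s24)))
    anti_empty_left
    (anti_empty_right.union_right (((j124.mono m12 le_rfl).union_right
      (x1.mono m12 s14)).union_right (x2.mono m12 s24)))
    ((b2.union_right (y12.mono s12 sb).symm).union_right ((b4.union_right
      (y14.mono s14 sb).symm).union_right (y24.mono s24 sb).symm))
    (((j142.mono m14 le_rfl).union_right (x1.symm.mono m14 s12)).union_right anti_empty_right)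
    (p1.union_right ((p4.union_right (y14.mono s14 sb').symm).union_right
      (y24.mono s24 sb').symm))
    ((j241.mono m24 le_rfl).union_right anti_empty_right)
    (q1.union_right (q2.union_right (y12.mono s12 se).symm))
    (y12.mono m12 se) (y24.mono m24 sb).symm (y14.mono m14 sb')
    ⟨(y12.mono m12 sb).ne rfl rfl, (x1.mono m12 m14).ne rfl rfl,
      (y14.mono m14 sb).symm.ne rfl rfl⟩
    ⟨(y12.mono m12 sb').ne rfl rfl, (x2.mono m12 m24).ne rfl rfl,
      (y24.mono m24 sb').symm.ne rfl rfl⟩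
    ⟨bb.ne, be.ne, be'.ne⟩
    ⟨(x3.mono m14 m24).ne rfl rfl, (y14.mono m14 se).ne rfl rfl, (y24.mono m24 se).ne rfl rfl⟩
    (Zone.of_sees c1 v12 b1 v14)
    (Zone.of_conn k12 w12 (Or.inr (p2.mono Set.subset_union_left))
      (Or.inr (v24.mono Set.subset_union_left)))
    (Zone.of_triangle _ bb be be')
    (Zone.of_conn K4 (cN_mono Set.subset_union_left w14) (cN_mono ?_ w24)
      (Or.inr (q4.mono (Set.subset_union_left.trans Set.subset_union_left))))
  intro y hy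
  simp only [Set.mem_union] at hy ⊢
  tauto

/-- (PURE) all but 17 members of a family touching `P` and `Q` are anticomplete to `Z` -/
theorem EHF.pure [Finite V] (hG : EHF G) {P Q Z : Set V} (cP : Conn G P) (cQ : Conn G Q)
    (cZ : Conn G Z) (aPQ : Anti G P Q) (aPZ : Anti G P Z) (aQZ : Anti G Q Z) {ι : Type*}
    {s : Finset ι} {F : ι → Set V} (hF : AFam G s F)
    (ht : ∀ i ∈ s, Touch G (F i) P ∧ Touch G (F i) Q) :
    ∃ s' ⊆ s, s.card ≤ s'.card + 17 ∧ ∀ i ∈ s', Anti G (F i) Z := by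
  classical
  refine ⟨s.filter fun i => Anti G (F i) Z, Finset.filter_subset _ _, ?_,
    fun i hi => (Finset.mem_filter.1 hi).2⟩
  have := hG.k3 cP cQ cZ aPQ aPZ aQZ (s := s.filter fun i => ¬ Anti G (F i) Z)
    (hF.mono (Finset.filter_subset _ _)) fun i hi => by
      obtain ⟨a, b⟩ := Finset.mem_filter.1 hi
      exact ⟨(ht i a).1, (ht i a).2, not_anti.1 b⟩
  have e := Finset.card_filter_add_card_filter_not (s := s) (fun i => Anti G (F i) Z)
  omega

/-- (PICK) all but 17 members of a family are anticomplete to one of three anticomplete sets -/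
theorem EHF.pick [Finite V] (hG : EHF G) {E₁ E₂ E₃ : Set V} (c1 : Conn G E₁) (c2 : Conn G E₂)
    (c3 : Conn G E₃) (a12 : Anti G E₁ E₂) (a13 : Anti G E₁ E₃) (a23 : Anti G E₂ E₃) {ι : Type*}
    {s : Finset ι} {F : ι → Set V} (hF : AFam G s F) :
    ∃ s' ⊆ s, s.card ≤ s'.card + 17 ∧
      ∀ i ∈ s', Anti G (F i) E₁ ∨ Anti G (F i) E₂ ∨ Anti G (F i) E₃ := by
  classical
  refine ⟨s.filter fun i => Anti G (F i) E₁ ∨ Anti G (F i) E₂ ∨ Anti G (F i) E₃,
    Finset.filter_subset _ _, ?_, fun i hi => (Finset.mem_filter.1 hi).2⟩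
  have := hG.k3 c1 c2 c3 a12 a13 a23
    (s := s.filter fun i => ¬ (Anti G (F i) E₁ ∨ Anti G (F i) E₂ ∨ Anti G (F i) E₃))
    (hF.mono (Finset.filter_subset _ _)) fun i hi => by
      obtain ⟨-, b⟩ := Finset.mem_filter.1 hi
      rw [not_or, not_or, not_anti, not_anti, not_anti] at b
      exact b
  have e := Finset.card_filter_add_card_filter_not (s := s)
    (fun i => Anti G (F i) E₁ ∨ Anti G (F i) E₂ ∨ Anti G (F i) E₃)
  omega

/-- (PICK) for a bundle with at least three members: all but 17 members miss some bundle set -/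
theorem EHF.pick_fam [Finite V] (hG : EHF G) {κ : Type*} {t : Finset κ} {E : κ → Set V}
    (hE : AFam G t E) (ht : 3 ≤ t.card) {ι : Type*} {s : Finset ι} {F : ι → Set V}
    (hF : AFam G s F) :
    ∃ s' ⊆ s, s.card ≤ s'.card + 17 ∧ ∀ i ∈ s', ∃ j ∈ t, Anti G (F i) (E j) := by
  obtain ⟨a, ha, b, hb, c, hc, ab, ac, bc⟩ := Finset.two_lt_card.1 (show 2 < t.card by omega)
  obtain ⟨s', h1, h2, h3⟩ := hG.pick (hE.1 a ha) (hE.1 b hb) (hE.1 c hc) (hE.2 a ha b hb ab)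
    (hE.2 a ha c hc ac) (hE.2 b hb c hc bc) hF
  refine ⟨s', h1, h2, fun i hi => ?_⟩
  rcases h3 i hi with h | h | h
  · exact ⟨a, ha, h⟩
  · exact ⟨b, hb, h⟩
  · exact ⟨c, hc, h⟩

/-- (PICK) one bundle set that is anticomplete to a third of the family -/
theorem EHF.pick_many [Finite V] (hG : EHF G) {κ : Type*} {t : Finset κ} {E : κ → Set V}
    (hE : AFam G t E) (ht : 3 ≤ t.card) {ι : Type*} {s : Finset ι} {F : ι → Set V}
    (hF : AFam G s F) :
    ∃ j ∈ t, ∃ s' ⊆ s, s.card ≤ 3 * s'.card + 17 ∧ ∀ i ∈ s', Anti G (F i) (E j) := by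
  classical
  obtain ⟨a, ha, b, hb, c, hc, ab, ac, bc⟩ := Finset.two_lt_card.1 (show 2 < t.card by omega)
  obtain ⟨s', h1, h2, h3⟩ := hG.pick (hE.1 a ha) (hE.1 b hb) (hE.1 c hc) (hE.2 a ha b hb ab)
    (hE.2 a ha c hc ac) (hE.2 b hb c hc bc) hF
  have key : s' ⊆ (s'.filter fun i => Anti G (F i) (E a)) ∪ (s'.filter fun i => Anti G (F i) (E b))
      ∪ (s'.filter fun i => Anti G (F i) (E c)) := by
    intro i hi
    simp only [Finset.mem_union, Finset.mem_filter]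
    rcases h3 i hi with h | h | h
    · exact Or.inl (Or.inl ⟨hi, h⟩)
    · exact Or.inl (Or.inr ⟨hi, h⟩)
    · exact Or.inr ⟨hi, h⟩
  have c1 := (Finset.card_le_card key).trans ((Finset.card_union_le _ _).trans
    (Nat.add_le_add_right (Finset.card_union_le _ _) _))
  have fin : ∀ j ∈ t, s.card ≤ 3 * (s'.filter fun i => Anti G (F i) (E j)).card + 17 →
      ∃ j ∈ t, ∃ s' ⊆ s, s.card ≤ 3 * s'.card + 17 ∧ ∀ i ∈ s', Anti G (F i) (E j) :=
    fun j hj h => ⟨j, hj, _, (Finset.filter_subset _ _).trans h1, h,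
      fun i hi => (Finset.mem_filter.1 hi).2⟩
  by_cases x1 : s.card ≤ 3 * (s'.filter fun i => Anti G (F i) (E a)).card + 17
  · exact fin a ha x1
  by_cases x2 : s.card ≤ 3 * (s'.filter fun i => Anti G (F i) (E b)).card + 17
  · exact fin b hb x2
  exact fin c hc (by omega)

/-- (BASE, tree-free form) a triangle `b b' e` with three zones, a bundle from the first to the
third zone and a joint `η`: at most 34 anticomplete sets join the first two zones -/
theorem EHF.base_count [Finite V] (hG : EHF G) {B₁ B₂ B₄ : Set V} {b b' e η : V}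
    (bb : G.Adj b b') (be : G.Adj b e) (be' : G.Adj b' e)
    (c1 : Conn G B₁) (c2 : Conn G B₂) (c4 : Conn G B₄)
    (a12 : Anti G B₁ B₂) (a14 : Anti G B₁ B₄) (a24 : Anti G B₂ B₄)
    (b1 : Sees G b B₁) (b2 : Anti G {b} B₂) (b4 : Anti G {b} B₄)
    (p2 : Sees G b' B₂) (p1 : Anti G {b'} B₁) (p4 : Anti G {b'} B₄)
    (q4 : Sees G e B₄) (q1 : Anti G {e} B₁) (q2 : Anti G {e} B₂)
    (h2 : Sees G η B₂) (h4 : Sees G η B₄) (h1 : Anti G {η} B₁) (h3 : Anti G {η} {b, b', e})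
    {κ : Type*} {t : Finset κ} {E : κ → Set V} (hE : AFam G t E) (ht : 3 ≤ t.card)
    (hE' : ∀ j ∈ t, Touch G (E j) B₁ ∧ Touch G (E j) B₄ ∧ Anti G (E j) B₂ ∧
      Anti G (E j) {b, b', e} ∧ Anti G (E j) {η})
    {ι : Type*} {s : Finset ι} {F : ι → Set V} (hF : AFam G s F)
    (hF' : ∀ i ∈ s, Touch G (F i) B₁ ∧ Touch G (F i) B₂ ∧ Anti G (F i) {b, b'} ∧
      Anti G (F i) {η}) : s.card ≤ 34 := by
  by_contra hc
  have e4 : insert e B₄ = {e} ∪ B₄ := rfl
  obtain ⟨s1, h11, h12, h13⟩ := hG.pure c1 c2 (c4.ins (Or.inr q4)) a12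
    (by rw [e4]; exact q1.symm.union_right a14) (by rw [e4]; exact q2.symm.union_right a24) hF
    fun i hi => ⟨(hF' i hi).1, (hF' i hi).2.1⟩
  obtain ⟨s2, h21, h22, h23⟩ := hG.pick_fam hE ht (hF.mono h11)
  obtain ⟨i, hi⟩ : s2.Nonempty := Finset.card_pos.1 (by omega)
  obtain ⟨j, hj, aij⟩ := h23 i hi
  have i1 := h21 hi
  have i0 := h11 i1
  have z := h13 i i1
  rw [e4, anti_union_right] at z
  obtain ⟨f1, f2, f3, f4⟩ := hF' i i0
  obtain ⟨g1, g2, g3, g4, g5⟩ := hE' j hj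
  refine hG.k4t bb be be' c1 c2 c4 a12 a14 a24 b1 b2 b4 p2 p1 p4 q4 q1 q2 (hF.1 i i0) (hE.1 j hj)
    (conn_singleton η) aij f4 g5 ?_ g4 h3 f1 f2 z.2 g1 g2 g3
    (touch_singleton_left.2 (Or.inr h2)) (touch_singleton_left.2 (Or.inr h4)) h1
  refine (f3.union_right z.1).mono le_rfl ?_
  intro y hy
  simp only [Set.mem_insert_iff, Set.mem_singleton_iff, Set.mem_union] at hy ⊢
  tauto

/-- (TW, core) zones `{x}`, `T`, `L`, `Z`; the joint between `T` and `L` is found on `F` -/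
theorem EHF.tw_core (hG : EHF G) {x w q g g' r : V} {T Z L F : Set V}
    (cT : Conn G T) (cZ : Conn G Z) (cL : Conn G L) (cF : Conn G F)
    (xT : Anti G {x} T) (xZ : Anti G {x} Z) (xL : Anti G {x} L) (TZ : Anti G T Z)
    (TL : Anti G T L) (LZ : Anti G L Z)
    (wx : G.Adj w x) (wT : Sees G w T) (wL : Anti G {w} L) (wZ : Anti G {w} Z)
    (gx : G.Adj g x) (gL : Sees G g L) (gT : Anti G {g} T) (gZ : Anti G {g} Z)
    (px : G.Adj g' x) (pZ : Sees G g' Z) (pT : Anti G {g'} T) (pL : Anti G {g'} L)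
    (qT : Sees G q T) (qZ : Sees G q Z) (qx : Anti G {q} {x}) (qL : Anti G {q} L)
    (rL : Sees G r L) (rZ : Sees G r Z) (rx : Anti G {r} {x}) (rT : Anti G {r} T)
    (wr : Anti G {w} {r}) (gq : Anti G {g} {q}) (qr : q ≠ r)
    (FT : Touch G F T) (FL : Touch G F L) (Fx : Anti G F {x}) (FZ : Anti G F Z)
    (Fg : Anti G F {g}) (Fp : Anti G F {g'}) (Fr : Anti G F {r}) : False := by
  obtain ⟨n, f, hf, fm, s0, sn, nA, nB⟩ := cF.extract FT FL TL
  have hr : Row G T L f n := ⟨hf, Or.inr s0, Or.inr sn, nA, nB⟩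
  obtain ⟨-, j, -, hj, -, -, -, hl⟩ := exists_first_last
    (p := fun i => i = 0 ∨ G.Adj (f i) q ∨ G.Adj (f i) w) (n := n) ⟨0, Nat.zero_le _, Or.inl rfl⟩
  have sI : ini f j ⊆ F := by
    rintro y ⟨k, hk, rfl⟩; exact (fm k (by omega)).1
  have sF : seg f (j + 1) n ⊆ F := seg_subset fun k _ hk => (fm k hk).1
  have sj : ({f j} : Set V) ⊆ F := by simpa using (fm j hj).1
  have qF : q ∉ F := fun c => FZ.not_sees c qZ
  have wF : w ∉ F := fun c => Fx.not_adj c rfl wx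
  have tail : ∀ y, y ∉ F → (∀ k, j < k → k ≤ n → ¬ G.Adj (f k) y) →
      Anti G {y} (seg f (j + 1) n) := by
    intro y hy h
    rw [anti_singleton_left]
    refine ⟨fun c => hy (sF c), ?_⟩
    rintro ⟨_, ⟨k, k1, k2, rfl⟩, e⟩
    exact h k (by omega) k2 e.symm
  have qt := tail q qF fun k a b e => hl k a b (Or.inr (Or.inl e))
  have wt := tail w wF fun k a b e => hl k a b (Or.inr (Or.inr e))
  have IL : Anti G (ini f j) L := by
    rw [anti_iff]
    rintro y ⟨k, hk, rfl⟩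
    exact nB k (by omega)
  have It : Anti G (ini f j) (seg f (j + 1) n) := by
    rintro y ⟨k, hk, rfl⟩ y' ⟨k', k1, k2, rfl⟩
    exact ⟨hf.ne (by omega) k2 (by omega), hf.not_adj (by omega) k2⟩
  obtain ⟨c2, m2⟩ := hr.conn_ini hj cT le_rfl
  obtain ⟨c3, m3⟩ := hr.conn_fin hj cL le_rfl
  have l : ∀ {y : V} {X Y : Set V}, Sees G y X → y ∈ cN G (X ∪ Y) := fun h =>
    Or.inr (h.mono Set.subset_union_left)
  exact hG.k4 (B₁ := {x}) (B₂ := T ∪ ini f j) (B₃ := L ∪ seg f (j + 1) n) (B₄ := Z)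
    (u₁₂ := w) (u₁₃ := g) (u₁₄ := g') (u₂₃ := f j) (u₂₄ := q) (u₃₄ := r)
    (xT.union_right (Fx.mono sI le_rfl).symm) (xL.union_right (Fx.mono sF le_rfl).symm) xZ
    ((TL.union_right (hr.antiA (by omega) le_rfl)).union_left (IL.union_right It))
    (TZ.union_left (FZ.mono sI le_rfl)) (LZ.union_left (FZ.mono sF le_rfl))
    ((wL.union_right wt).union_right wZ)
    ((gT.union_right (Fg.mono sI le_rfl).symm).union_right gZ)
    ((pT.union_right (Fp.mono sI le_rfl).symm).union_right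
      (pL.union_right (Fp.mono sF le_rfl).symm))
    ((Fx.mono sj le_rfl).union_right (FZ.mono sj le_rfl))
    (qx.union_right (qL.union_right qt))
    (rx.union_right (rT.union_right (Fr.mono sI le_rfl).symm))
    wr gq (Fp.mono sj le_rfl).symm
    ⟨fun c => gT.not_sees rfl (c ▸ wT), fun c => pT.not_sees rfl (c ▸ wT),
      fun c => pL.not_sees rfl (c ▸ gL)⟩
    ⟨fun c => wF (c ▸ sj rfl), fun c => qx.not_adj rfl rfl (c ▸ wx), fun c => qF (c ▸ sj rfl)⟩
    ⟨(Fg.mono sj le_rfl).symm.ne rfl rfl, fun c => rx.not_adj rfl rfl (c ▸ gx),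
      (Fr.mono sj le_rfl).ne rfl rfl⟩
    ⟨fun c => qx.not_adj rfl rfl (c ▸ px), fun c => rx.not_adj rfl rfl (c ▸ px), qr⟩
    (Zone.of_sees (conn_singleton x) (sees_singleton.2 wx) (sees_singleton.2 gx)
      (sees_singleton.2 px))
    (Zone.of_conn c2 (l wT) m2 (l qT)) (Zone.of_conn c3 (l gL) m3 (l rL))
    (Zone.of_sees cZ pZ qZ rZ)

/-- (TW, preparation) cutting a connection from `T` to `U` after the last neighbour of `w` -/
theorem Conn.tw_prep {K T U : Set V} {w : V} (cK : Conn G K) (cT : Conn G T) (cU : Conn G U)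
    (KT : Touch G K T) (KU : Touch G K U) (TU : Anti G T U) (wU : Anti G {w} U) (wK : w ∉ K) :
    ∃ (P Q : Set V) (q : V), P ⊆ K \ U ∧ Q ⊆ K \ U ∧ ({q} : Set V) ⊆ K \ U ∧ Conn G (T ∪ P) ∧
      Conn G (U ∪ Q) ∧ Anti G (T ∪ P) (U ∪ Q) ∧ Sees G q (T ∪ P) ∧ Sees G q (U ∪ Q) ∧
      Anti G {w} (U ∪ Q) := by
  obtain ⟨n, f, hf, fm, s0, sn, nA, nB⟩ := cK.extract KT KU TU
  have hr : Row G T U f n := ⟨hf, Or.inr s0, Or.inr sn, nA, nB⟩
  obtain ⟨-, j, -, hj, -, -, -, hl⟩ := exists_first_last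
    (p := fun i => i = 0 ∨ G.Adj (f i) w) (n := n) ⟨0, Nat.zero_le _, Or.inl rfl⟩
  have IL : Anti G (ini f j) U := by
    rw [anti_iff]
    rintro y ⟨k, hk, rfl⟩
    exact nB k (by omega)
  have It : Anti G (ini f j) (seg f (j + 1) n) := by
    rintro y ⟨k, hk, rfl⟩ y' ⟨k', k1, k2, rfl⟩
    exact ⟨hf.ne (by omega) k2 (by omega), hf.not_adj (by omega) k2⟩
  obtain ⟨c2, m2⟩ := hr.conn_ini hj cT le_rfl
  obtain ⟨c3, m3⟩ := hr.conn_fin hj cU le_rfl
  refine ⟨ini f j, seg f (j + 1) n, f j, ?_, seg_subset fun k _ hk => ⟨(fm k hk).1, (fm k hk).2.2⟩,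
    by simpa using ⟨(fm j hj).1, (fm j hj).2.2⟩, c2, c3,
    (TU.union_right (hr.antiA (by omega) le_rfl)).union_left (IL.union_right It), ?_, ?_,
    wU.union_right ?_⟩
  · rintro y ⟨k, hk, rfl⟩
    exact ⟨(fm k (by omega)).1, (fm k (by omega)).2.2⟩
  · refine m2.resolve_left ?_
    rintro (c | ⟨k, hk, c⟩)
    · exact (fm j hj).2.1 c
    · exact hf.ne (by omega) hj hk.ne c
  · refine m3.resolve_left ?_
    rintro (c | ⟨k, k1, k2, c⟩)
    · exact (fm j hj).2.2 c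
    · exact hf.ne k2 hj (by omega) c
  · rw [anti_singleton_left]
    constructor
    · rintro ⟨k, -, k2, rfl⟩; exact wK (fm k k2).1
    · rintro ⟨_, ⟨k, k1, k2, rfl⟩, e⟩
      exact hl k (by omega) k2 (Or.inr e.symm)

/-- (TOOTH-WALL) `x` a vertex with a tooth `w + T`, an upper part `U` reached by `g'`, a lower
part `L`; `K` joins the tooth to the upper part; a bundle `E` provides, for each of its members,
an extension `R j` of the lower part, a joint `g j` to `x` and a joint `r j` to the upper part.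
Then at most 34 anticomplete sets join the tooth to the lower part. -/
theorem EHF.tw_count [Finite V] (hG : EHF G) {x w g' : V} {T U K L : Set V}
    (cT : Conn G T) (cU : Conn G U) (cK : Conn G K) (cL : Conn G L)
    (xT : Anti G {x} T) (xU : Anti G {x} U) (xK : Anti G {x} K) (xL : Anti G {x} L)
    (TU : Anti G T U) (TL : Anti G T L) (LU : Anti G L U) (LK : Anti G L K)
    (KT : Touch G K T) (KU : Touch G K U)
    (wx : G.Adj w x) (wT : Sees G w T) (wL : Anti G {w} L) (wU : Anti G {w} U)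
    (px : G.Adj g' x) (pU : Sees G g' U) (pT : Anti G {g'} T) (pL : Anti G {g'} L)
    (pK : Anti G {g'} (K \ U))
    {κ : Type*} {t : Finset κ} {E R : κ → Set V} {g r : κ → V} (hE : AFam G t E)
    (ht : 3 ≤ t.card)
    (hR : ∀ j ∈ t, Conn G (L ∪ R j) ∧ Anti G (R j) ({x, w, g'} ∪ T ∪ U ∪ K))
    (hg : ∀ j ∈ t, G.Adj (g j) x ∧ Sees G (g j) (L ∪ R j) ∧ Anti G {g j} (T ∪ U ∪ K))
    (hr : ∀ j ∈ t, Sees G (r j) (L ∪ R j) ∧ Sees G (r j) U ∧ Anti G {r j} ({x, w} ∪ T ∪ (K \ U)))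
    {ι : Type*} {s : Finset ι} {F : ι → Set V} (hF : AFam G s F)
    (hF' : ∀ i ∈ s, Touch G (F i) T ∧ Touch G (F i) L ∧ Anti G (F i) {x} ∧ Anti G (F i) {g'})
    (hFE : ∀ i ∈ s, ∀ j ∈ t, Anti G (F i) (E j) → Anti G (F i) (R j ∪ {g j} ∪ {r j})) :
    s.card ≤ 34 := by
  by_contra hc
  obtain ⟨P, Q, q, sP, sQ, sq, c2, c4, a24, q2, q4, w4⟩ :=
    cK.tw_prep cT cU KT KU TU wU fun c => xK.not_adj rfl c wx.symm
  have dK : K \ U ⊆ K := Set.diff_subset
  have a23 : Anti G (T ∪ P) L := TL.union_left (LK.symm.mono (sP.trans dK) le_rfl)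
  have a34 : Anti G L (U ∪ Q) := LU.union_right (LK.mono le_rfl (sQ.trans dK))
  obtain ⟨s1, h11, h12, h13⟩ := hG.pure c2 cL c4 a23 a24 a34 hF
    fun i hi => ⟨(hF' i hi).1.mono le_rfl Set.subset_union_left, (hF' i hi).2.1⟩
  obtain ⟨s2, h21, h22, h23⟩ := hG.pick_fam hE ht (hF.mono h11)
  obtain ⟨i, hi⟩ : s2.Nonempty := Finset.card_pos.1 (by omega)
  obtain ⟨j, hj, aij⟩ := h23 i hi
  have i1 := h21 hi
  have i0 := h11 i1
  obtain ⟨f1, f2, f3, f4⟩ := hF' i i0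
  have f5 := hFE i i0 j hj aij
  obtain ⟨R1, R2⟩ := hR j hj
  obtain ⟨g1, g2, g3⟩ := hg j hj
  obtain ⟨r1, r2, r3⟩ := hr j hj
  simp only [anti_union_right] at f5 R2 g3 r3
  have sx : ({x} : Set V) ⊆ {x, w, g'} := by simp
  have sw : ({w} : Set V) ⊆ {x, w, g'} := by simp
  have sp : ({g'} : Set V) ⊆ {x, w, g'} := by simp
  have sx' : ({x} : Set V) ⊆ {x, w} := by simp
  have sw' : ({w} : Set V) ⊆ {x, w} := by simp
  -- the link is rerouted to the lower part alone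
  refine hG.tw_core (x := x) (w := w) (q := q) (g := g j) (g' := g') (r := r j) (T := T ∪ P)
    (Z := U ∪ Q) (L := L ∪ R j) (F := F i) c2 c4 R1 (hF.1 i i0)
    (xT.union_right (xK.mono le_rfl (sP.trans dK))) (xU.union_right (xK.mono le_rfl (sQ.trans dK)))
    (xL.union_right (R2.1.1.1.mono le_rfl sx).symm) a24
    (a23.union_right (R2.1.1.2.symm.union_left (R2.2.symm.mono (sP.trans dK) le_rfl)))
    (a34.union_left (R2.1.2.union_right (R2.2.mono le_rfl (sQ.trans dK))))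
    wx (wT.mono Set.subset_union_left) (wL.union_right (R2.1.1.1.mono le_rfl sw).symm) w4
    g1 g2 (g3.1.1.union_right (g3.2.mono le_rfl (sP.trans dK)))
    (g3.1.2.union_right (g3.2.mono le_rfl (sQ.trans dK)))
    px (pU.mono Set.subset_union_left) (pT.union_right (pK.mono le_rfl sP))
    (pL.union_right (R2.1.1.1.mono le_rfl sp).symm)
    q2 q4 (xK.symm.mono (sq.trans dK) le_rfl)
    ((LK.symm.mono (sq.trans dK) le_rfl).union_right (R2.2.symm.mono (sq.trans dK) le_rfl))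
    r1 (r2.mono Set.subset_union_left) (r3.1.1.mono le_rfl sx')
    (r3.1.2.union_right (r3.2.mono le_rfl sP))
    (r3.1.1.mono le_rfl sw').symm (g3.2.mono le_rfl (sq.trans dK))
    ((r3.2.mono le_rfl sq).symm.ne rfl rfl)
    (f1.mono le_rfl Set.subset_union_left) (f2.mono le_rfl Set.subset_union_left) f3 (h13 i i1)
    f5.1.2 f4 f5.2

/-- a member that is anticomplete to a member of each of two bundles -/
theorem EHF.pick_two [Finite V] (hG : EHF G) {κ κ' : Type*} {t : Finset κ} {E : κ → Set V}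
    {t' : Finset κ'} {E' : κ' → Set V} (hE : AFam G t E) (ht : 3 ≤ t.card) (hE' : AFam G t' E')
    (ht' : 3 ≤ t'.card) {ι : Type*} {s : Finset ι} {F : ι → Set V} (hF : AFam G s F)
    (hs : 34 < s.card) :
    ∃ i ∈ s, ∃ j ∈ t, ∃ k ∈ t', Anti G (F i) (E j) ∧ Anti G (F i) (E' k) := by
  obtain ⟨s1, h11, h12, h13⟩ := hG.pick_fam hE ht hF
  obtain ⟨s2, h21, h22, h23⟩ := hG.pick_fam hE' ht' (hF.mono h11)
  obtain ⟨i, hi⟩ : s2.Nonempty := Finset.card_pos.1 (by omega)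
  obtain ⟨j, hj, a⟩ := h13 i (h21 hi)
  obtain ⟨k, hk, b⟩ := h23 i hi
  exact ⟨i, h11 (h21 hi), j, hj, k, hk, a, b⟩

/-- (X, X') four zones in a row joined by three vertices; the three other pairs of zones cannot
be joined by anticomplete sets -/
theorem EHF.xpath (hG : EHF G) {Z₁ Z₂ Z₃ Z₄ J₁₃ J₁₄ J₂₄ : Set V} {a b c : V}
    (c1 : Conn G Z₁) (c2 : Conn G Z₂) (c3 : Conn G Z₃) (c4 : Conn G Z₄)
    (a12 : Anti G Z₁ Z₂) (a13 : Anti G Z₁ Z₃) (a14 : Anti G Z₁ Z₄) (a23 : Anti G Z₂ Z₃)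
    (a24 : Anti G Z₂ Z₄) (a34 : Anti G Z₃ Z₄)
    (ab : Anti G {a} {b}) (ac : Anti G {a} {c}) (bc : Anti G {b} {c})
    (a1 : Sees G a Z₁) (a2 : Sees G a Z₂) (a3 : Anti G {a} Z₃) (a4 : Anti G {a} Z₄)
    (b2 : Sees G b Z₂) (b3 : Sees G b Z₃) (b1 : Anti G {b} Z₁) (b4 : Anti G {b} Z₄)
    (c3' : Sees G c Z₃) (c4' : Sees G c Z₄) (c1' : Anti G {c} Z₁) (c2' : Anti G {c} Z₂)
    (d13 : Conn G J₁₃) (d14 : Conn G J₁₄) (d24 : Conn G J₂₄)
    (x1 : Anti G J₁₃ J₁₄) (x2 : Anti G J₁₃ J₂₄) (x3 : Anti G J₁₄ J₂₄)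
    (y13 : Anti G J₁₃ {a, b, c}) (y14 : Anti G J₁₄ {a, b, c}) (y24 : Anti G J₂₄ {a, b, c})
    (e131 : Touch G J₁₃ Z₁) (e133 : Touch G J₁₃ Z₃) (j132 : Anti G J₁₃ Z₂) (j134 : Anti G J₁₃ Z₄)
    (e141 : Touch G J₁₄ Z₁) (e144 : Touch G J₁₄ Z₄) (j142 : Anti G J₁₄ Z₂) (j143 : Anti G J₁₄ Z₃)
    (e242 : Touch G J₂₄ Z₂) (e244 : Touch G J₂₄ Z₄) (j241 : Anti G J₂₄ Z₁)
    (j243 : Anti G J₂₄ Z₃) : False := by
  have sa : ({a} : Set V) ⊆ {a, b, c} := by simp
  have sb : ({b} : Set V) ⊆ {a, b, c} := by simp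
  have sc : ({c} : Set V) ⊆ {a, b, c} := by simp
  have l : ∀ {y : V} {X : Set V}, Sees G y X → Touch G {y} X := fun h =>
    touch_singleton_left.2 (Or.inr h)
  exact hG.k4im (J₁₂ := {a}) (J₂₃ := {b}) (J₃₄ := {c}) c1 c2 c3 c4 a12 a13 a14 a23 a24 a34
    (conn_singleton a) d13 d14 (conn_singleton b) d24 (conn_singleton c)
    (y13.mono le_rfl sa).symm (y14.mono le_rfl sa).symm ab (y24.mono le_rfl sa).symm ac x1
    (y13.mono le_rfl sb) x2 (y13.mono le_rfl sc) (y14.mono le_rfl sb) x3 (y14.mono le_rfl sc)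
    (y24.mono le_rfl sb).symm bc (y24.mono le_rfl sc)
    (l a1) (l a2) a3 a4 e131 e133 j132 j134 e141 e144 j142 j143 (l b2) (l b3) b1 b4
    e242 e244 j241 j243 (l c3') (l c4') c1' c2'

/-- (TEETH) links `F i` from teeth `T (τ i)` to `L`; the teeth touch `X` and `K`; if every tooth
carries at most `b` links, there are at most `b * diagN 18` links -/
theorem EHF.teeth {V : Type} [Finite V] {G : SimpleGraph V} (hG : EHF G) {X L K : Set V}
    (cX : Conn G X) (cL : Conn G L) (cK : Conn G K) (XL : Anti G X L) (XK : Anti G X K)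
    (LK : Anti G L K) {ι : Type*} {κ : Type} [DecidableEq κ] {s : Finset ι} {F : ι → Set V}
    (hF : AFam G s F) (τ : ι → κ) (T : κ → Set V) (cT : ∀ i ∈ s, Conn G (T (τ i)))
    (aT : ∀ i ∈ s, ∀ j ∈ s, τ i ≠ τ j → Anti G (T (τ i)) (T (τ j)))
    (hT : ∀ i ∈ s, Touch G (F i) (T (τ i)) ∧ Touch G (F i) L ∧ Touch G (T (τ i)) X ∧
      Touch G (T (τ i)) K) {b : ℕ} (hb : ∀ k, (s.filter fun i => τ i = k).card ≤ b) :
    s.card ≤ b * diagN 18 := by
  classical
  refine (Finset.card_le_mul_card_image (f := τ) s b fun k _ => hb k).trans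
    (Nat.mul_le_mul_left _ ?_)
  by_contra hc
  have hex : ∀ k ∈ s.image τ, ∃ i, i ∈ s ∧ τ i = k := fun k hk => by
    simpa using Finset.mem_image.1 hk
  obtain ⟨i0, -⟩ : s.Nonempty := by
    by_contra c
    rw [Finset.not_nonempty_iff_eq_empty] at c
    subst c
    simp at hc
  haveI hne : Nonempty ι := ⟨i0⟩
  choose! ρ hρ using hex
  have hE : AFam G (s.image τ) fun k => F (ρ k) :=
    ⟨fun k hk => hF.1 _ (hρ k hk).1, fun k hk l hl ne => hF.2 _ (hρ k hk).1 _ (hρ l hl).1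
      fun e => ne (by rw [← (hρ k hk).2, e, (hρ l hl).2])⟩
  have hT' : AFam G (s.image τ) T := by
    refine ⟨fun k hk => (hρ k hk).2 ▸ cT _ (hρ k hk).1, fun k hk l hl ne => ?_⟩
    have := aT _ (hρ k hk).1 _ (hρ l hl).1 (by rwa [(hρ k hk).2, (hρ l hl).2])
    rwa [(hρ k hk).2, (hρ l hl).2] at this
  obtain ⟨s', h1, h2, h3⟩ := diag_main k3Stmt hG (t := 18) hE hT' (by omega)
  have hx : ∀ k ∈ s', Touch G (F (ρ k)) (T k) ∧ Touch G (F (ρ k)) L ∧ Touch G (T k) X ∧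
      Touch G (T k) K := fun k hk => by
    have := hT _ (hρ k (h1 hk)).1
    rwa [(hρ k (h1 hk)).2] at this
  have := hG.k3 cX cL cK XL XK LK (s := s') (F := fun k => F (ρ k) ∪ T k)
    ⟨fun k hk => (hE.1 k (h1 hk)).un (hT'.1 k (h1 hk)) (hx k hk).1, fun k hk l hl ne =>
      ((hE.2 k (h1 hk) l (h1 hl) ne).union_right (h3 k hk l hl ne)).union_left
        ((h3 l hl k hk ne.symm).symm.union_right (hT'.2 k (h1 hk) l (h1 hl) ne))⟩
    fun k hk => ⟨(hx k hk).2.2.1.mono Set.subset_union_right le_rfl,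
      (hx k hk).2.1.mono Set.subset_union_left le_rfl,
      (hx k hk).2.2.2.mono Set.subset_union_right le_rfl⟩
  omega

end Pool.Agent.Ehf
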