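import Pool.Agent.MP_3ad207_lc.H43.LinDefs
import Pool.Agent.MP_3ad207_lc.H24.Hole
import Pool.Agent.MP_3ad207_lc.H24.Zone

/-! (TRI): of two anticomplete ears over the same white, the outer hole forces a triangle base
for the inner ear; the door at the triangle base. -/

set_option autoImplicit false

namespace Pool.Agent.Ehf

variable {V : Type*} {G : SimpleGraph V} {S I : Set V}

theorem Conn.joined {O Y : Set V} {e f : V} (hY : Conn G Y) (he : e ∈ Y) (hf : f ∈ Y)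
    (hne : e ≠ f) (hA : Anti G (Y \ {e, f}) O) : Joined G O e f := by
  obtain ⟨n, p, hp, p0, pn, pm⟩ := hY.exists_ipc he hf
  have hn : 0 < n := by
    by_contra c
    have : n = 0 := by omega
    subst this; exact hne (p0.symm.trans pn)
  have := hp.joined (O := O) hn le_rfl fun k k1 k2 => anti_iff.1 hA _ ⟨pm k k2.le, by
    rintro (c | c)
    · exact hp.ne k2.le (Nat.zero_le _) k1.ne' (c.trans p0.symm)
    · exact hp.ne k2.le le_rfl k2.ne ((Set.mem_singleton_iff.1 c).trans pn.symm)⟩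
  rwa [p0, pn] at this

theorem Ear.t_set_rev (F : Ear V) : F.rev.set = F.set := seg_rev F.f F.n

theorem Ear.t_mem (F : Ear V) {i : ℕ} (hi : i ≤ F.n) : F.f i ∈ F.set :=
  apply_mem_seg (Nat.zero_le _) hi

namespace Setup

variable (h : Setup G S I) {u : V} {L R : Set V}
include h

theorem t_symm (s : h.Sides u L R) : h.Sides u R L :=
  ⟨s.white, s.cR, s.cL, s.anti.symm, (Set.union_comm R L).trans s.cover⟩

theorem t_uH (s : h.Sides u L R) : u ∈ HH S I := white_mem_HH s.white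

theorem t_LH (s : h.Sides u L R) : L ⊆ HH S I := fun x hx => by
  have : x ∈ HH S I \ {u} := s.cover ▸ Or.inl hx
  exact this.1

theorem t_uL (s : h.Sides u L R) : u ∉ L := fun hx => by
  have : u ∈ HH S I \ {u} := s.cover ▸ Or.inl hx
  exact this.2 rfl

theorem t_cases (s : h.Sides u L R) {x : V} (hx : x ∈ HH S I) : x = u ∨ x ∈ L ∨ x ∈ R := by
  by_cases c : x = u
  · exact Or.inl c
  · have : x ∈ L ∪ R := s.cover ▸ ⟨hx, c⟩
    exact Or.inr this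

theorem t_conn_side (s : h.Sides u L R) {X : Set V} (hX : Conn G X) (hH : X ⊆ HH S I)
    (hu : u ∉ X) {a : V} (aX : a ∈ X) (ha : a ∈ L) : X ⊆ L := by
  have : X ⊆ L ∪ R := by
    rw [s.cover]; exact fun y hy => ⟨hH hy, fun c => hu (c ▸ hy)⟩
  rcases hX.subset_or s.anti this with c | c
  · exact c
  · exact (s.anti.notMem ha (c aX)).elim

theorem t_seg_side (s : h.Sides u L R) {a y : V} (ha : a ∈ L) (hy : y ∈ h.hseg u a)
    (hne : y ≠ u) : y ∈ L := by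
  have aH := h.t_LH s ha
  have uH := h.t_uH s
  have ua : u ≠ a := fun c => h.t_uL s (c ▸ ha)
  exact h.t_conn_side s (h.conn_hseg_diff_left uH aH ua)
    (fun z hz => h.hseg_subset_H uH aH hz.1) (fun c => c.2 rfl)
    ⟨h.right_mem_hseg uH aH, ua.symm⟩ ha ⟨hy, hne⟩

theorem t_mid (s : h.Sides u L R) {a b : V} (ha : a ∈ L) (hb : b ∈ R) : u ∈ h.hseg a b := by
  have aH := h.t_LH s ha
  have bH := h.t_LH (h.t_symm s) hb
  by_contra c
  exact s.anti.notMem (h.t_conn_side s (h.conn_hseg aH bH) (h.hseg_subset_H aH bH) c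
    (h.left_mem_hseg aH bH) ha (h.right_mem_hseg aH bH)) hb

theorem t_sub_side (s : h.Sides u L R) {a x : V} (ha : a ∈ L) (hx : x ∈ h.Sub u a) : x ∈ L := by
  have ua : a ≠ u := fun c => h.t_uL s (c ▸ ha)
  rcases h.t_cases s hx.1 with c | c | c
  · have := hx.2
    rw [c, h.hseg_self (h.t_uH s)] at this
    exact (ua this).elim
  · exact c
  · exact (s.anti.notMem ha (h.t_seg_side (h.t_symm s) c hx.2 ua)).elim

theorem t_sub_root (s : h.Sides u L R) {a b x : V} (ha : a ∈ L) (hb : b ∈ R)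
    (hx : x ∈ h.Sub b a) : x ∈ h.Sub u a := by
  have bH := h.t_LH (h.t_symm s) hb
  have ua : a ≠ u := fun c => h.t_uL s (c ▸ ha)
  refine ⟨hx.1, ?_⟩
  rcases h.hseg_subset_union bH (h.t_uH s) hx.1 hx.2 with c | c
  · rw [h.hseg_symm (h.t_uH s) bH] at c
    exact (s.anti.notMem ha (h.t_seg_side (h.t_symm s) hb c ua)).elim
  · exact c

theorem t_sub_trans {r x y z : V} (hr : r ∈ HH S I) (h1 : x ∈ h.Sub r y) (h2 : y ∈ h.Sub r z) :
    x ∈ h.Sub r z :=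
  ⟨h1.1, h.hseg_subset_hseg hr h1.1 (h.left_mem_hseg hr h1.1) h1.2 h2.2⟩

theorem t_self_sub {r x : V} (hr : r ∈ HH S I) (hx : x ∈ HH S I) : x ∈ h.Sub r x :=
  ⟨hx, h.right_mem_hseg hr hx⟩

theorem t_seg_split (s : h.Sides u L R) {a b y : V} (ha : a ∈ L) (hb : b ∈ R) :
    y ∈ h.hseg a b ↔ y ∈ h.hseg u a ∨ y ∈ h.hseg u b := by
  have aH := h.t_LH s ha
  have bH := h.t_LH (h.t_symm s) hb
  rw [(h.hseg_split aH bH (h.t_mid s ha hb)).2.1, h.hseg_symm (h.t_uH s) aH]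
  rfl

theorem t_ear_rev {F : Ear V} (e : h.IsEar F) : h.IsEar F.rev := by
  refine ⟨e.ip.rev, fun i _ => e.out _ (Nat.sub_le _ _), e.bH, e.aH, by simpa [Ear.rev] using e.eb,
    by simpa [Ear.rev] using e.ea, fun i hi x hx a => ?_⟩
  have hi' : i ≤ F.n := hi
  rcases e.nbr (F.n - i) (Nat.sub_le _ _) x hx a with ⟨c, d⟩ | ⟨c, d⟩
  · right; exact ⟨show i = F.n by omega, d⟩
  · left; exact ⟨by omega, d⟩

theorem t_ear_nbr (s : h.Sides u L R) {F : Ear V} (e : h.IsEar F) (ha : F.a ∈ L) (hb : F.b ∈ R)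
    {i : ℕ} (hi : i ≤ F.n) {x : V} (hx : x ∈ HH S I) (a : G.Adj (F.f i) x) :
    (i = 0 ∧ x ∈ h.Sub u F.a) ∨ (i = F.n ∧ x ∈ h.Sub u F.b) := by
  rcases e.nbr i hi x hx a with ⟨c, d⟩ | ⟨c, d⟩
  · exact Or.inl ⟨c, h.t_sub_root s ha hb d⟩
  · exact Or.inr ⟨c, h.t_sub_root (h.t_symm s) hb ha d⟩

theorem t_ear_nbrL (s : h.Sides u L R) {F : Ear V} (e : h.IsEar F) (ha : F.a ∈ L) (hb : F.b ∈ R)
    {i : ℕ} (hi : i ≤ F.n) {x : V} (hx : x ∈ L) (a : G.Adj (F.f i) x) :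
    i = 0 ∧ x ∈ h.Sub u F.a := by
  rcases h.t_ear_nbr s e ha hb hi (h.t_LH s hx) a with c | ⟨-, d⟩
  · exact c
  · exact (s.anti.notMem hx (h.t_sub_side (h.t_symm s) hb d)).elim

/-- an ear is anticomplete to every part of the tree that misses the subtrees of its tops -/
theorem t_ear_anti (s : h.Sides u L R) {F : Ear V} (e : h.IsEar F) (ha : F.a ∈ L) (hb : F.b ∈ R)
    {X : Set V} (hX : X ⊆ HH S I) (h1 : ∀ x ∈ X, x ∉ h.Sub u F.a) (h2 : ∀ x ∈ X, x ∉ h.Sub u F.b) :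
    Anti G F.set X := by
  rintro _ ⟨i, -, hi, rfl⟩ x hx
  refine ⟨fun c => e.out i hi (c ▸ hX hx), fun a => ?_⟩
  rcases h.t_ear_nbr s e ha hb hi (hX hx) a with ⟨-, c⟩ | ⟨-, c⟩
  · exact h1 x hx c
  · exact h2 x hx c

theorem t_ear_conn {F : Ear V} (e : h.IsEar F) : Conn G F.set :=
  e.ip.conn_seg (Nat.zero_le _) le_rfl

theorem t_ear_out {F : Ear V} (e : h.IsEar F) {x : V} (hx : x ∈ F.set) : x ∉ HH S I := by
  obtain ⟨i, -, hi, rfl⟩ := hx
  exact e.out i hi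

theorem t_eq_of_mem {a b x : V} (ha : a ∈ HH S I) (hb : b ∈ HH S I) (h1 : x ∈ h.hseg a b)
    (h2 : a ∈ h.hseg b x) : x = a := by
  have xH := h.hseg_subset_H ha hb h1
  have e1 := (h.mem_hseg_iff_hlen ha xH hb).1 h1
  have e2 := (h.mem_hseg_iff_hlen hb ha xH).1 h2
  have e3 := h.hlen_symm ha hb
  have e4 := h.hlen_symm xH hb
  exact ((h.hlen_eq_zero_iff ha xH).1 (by omega)).symm

/-- an ear together with the tree path between its tops is a hole -/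
theorem t_ear_hole (s : h.Sides u L R) {F : Ear V} (e : h.IsEar F) (ha : F.a ∈ L)
    (hb : F.b ∈ R) : HoleS G (h.hseg F.a F.b ∪ F.set) := by
  have p1 : PS G F.a F.b (h.hseg F.a F.b) :=
    ⟨_, _, h.hpath_isIP e.aH e.bH, h.hpath_zero e.aH e.bH, h.hpath_hlen e.aH e.bH, rfl⟩
  refine HoleS.of_two p1 (e.ip.ps (Nat.zero_le _) le_rfl) e.ea.symm e.eb.symm ?_ ?_
    (Or.inr (Or.inl ⟨s.anti.ne ha hb, s.anti.not_adj ha hb⟩))
  · exact Set.disjoint_left.2 fun x hx c => h.t_ear_out e c (h.hseg_subset_H e.aH e.bH hx)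
  · rintro x hx _ ⟨i, -, hi, rfl⟩ a
    rcases e.nbr i hi x (h.hseg_subset_H e.aH e.bH hx) a.symm with ⟨c, d⟩ | ⟨c, d⟩
    · exact Or.inl ⟨h.t_eq_of_mem e.aH e.bH hx d.2, by rw [c]⟩
    · exact Or.inr ⟨h.t_eq_of_mem e.bH e.aH (h.hseg_symm e.aH e.bH ▸ hx) d.2, by rw [c]⟩

/-- the first vertex of the ear has exactly two neighbours on the path from `u` to `t`, the top
and its child -/
def TriL (u : V) (F : Ear V) (t : V) : Prop :=
  ∃ c, F.a ∈ h.hseg u t ∧ c ∈ h.hseg u t ∧ G.Adj F.a c ∧ c ∈ h.Sub u F.a ∧ G.Adj (F.f 0) c ∧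
    ∀ y ∈ h.hseg u t, G.Adj (F.f 0) y → y = F.a ∨ y = c

theorem t_side_ext (s : h.Sides u L R) {F F' : Ear V} (e : h.IsEar F) (e' : h.IsEar F')
    (ha : F.a ∈ L) (hb : F.b ∈ R) (ha' : F'.a ∈ L) (hb' : F'.b ∈ R)
    (na : F.a ∉ h.Sub u F'.a) :
    ∃ (p : V) (X : Set V), X ⊆ L ∧ Conn G (X ∪ F.set) ∧
      Anti G (X \ {p}) (h.hseg F'.a F'.b ∪ F'.set) ∧
      ((p = F.f 0 ∧ F.a ∈ h.hseg u F'.a) ∨ (p ∈ X ∧ F.a ∉ h.hseg u F'.a ∧
        p ∉ h.hseg F'.a F'.b ∧ ∃ m ∈ L, Nb G (h.hseg F'.a F'.b ∪ F'.set) p = {m})) := by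
  by_cases c : F.a ∈ h.hseg u F'.a
  · exact ⟨F.f 0, ∅, Set.empty_subset _, by simpa using h.t_ear_conn e,
      by simpa using anti_empty_left, Or.inl ⟨rfl, c⟩⟩
  have uH := h.t_uH s
  have cT := h.conn_hseg e'.aH e'.bH
  have sT := h.hseg_subset_H e'.aH e'.bH
  obtain ⟨m, mT, m1, m2⟩ := h.exists_gate cT sT e.aH
  have mH := sT mT
  have mL : m ∈ L := h.hseg_subset s.cL (h.t_LH s) ha' ha (m2 _ (h.left_mem_hseg e'.aH e'.bH))
  have mu : m ∈ h.hseg u F.a := m2 _ (h.t_mid s ha' hb')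
  have ma : m ≠ F.a := by
    rintro rfl
    rcases (h.t_seg_split s ha' hb').1 mT with d | d
    · exact c d
    · exact s.anti.notMem ha (h.t_seg_side (h.t_symm s) hb' d fun x => h.t_uL s (x ▸ ha))
  have XL : h.hseg m F.a \ {m} ⊆ L := fun y hy =>
    h.hseg_subset s.cL (h.t_LH s) mL ha hy.1
  have cX := h.conn_hseg_diff_left mH e.aH ma
  have dX : Disjoint (h.hseg m F.a \ {m}) (h.hseg F'.a F'.b) :=
    Set.disjoint_left.2 fun y hy d => hy.2 (m1 y hy.1 d)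
  have pX := h.hpath_one_mem mH e.aH ma
  have pm := h.adj_hpath_one mH e.aH ma
  have aF' : Anti G F'.set (h.hseg m F.a \ {m}) := by
    refine h.t_ear_anti s e' ha' hb' (XL.trans (h.t_LH s)) (fun y hy d => na ⟨e.aH, ?_⟩)
      fun y hy d => s.anti.notMem (XL hy) (h.t_sub_side (h.t_symm s) hb' d)
    exact h.hseg_subset_hseg uH e.aH (h.left_mem_hseg uH e.aH)
      (h.hseg_subset_hseg uH e.aH mu (h.right_mem_hseg uH e.aH) hy.1) d.2
  have uq : ∀ y ∈ h.hseg m F.a \ {m}, ∀ t ∈ h.hseg F'.a F'.b, G.Adj y t →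
      y = h.hpath m F.a 1 ∧ t = m := fun y hy t ht a =>
    h.edge_unique cX cT (XL.trans (h.t_LH s)) sT dX hy ht pX mT a pm.symm
  refine ⟨h.hpath m F.a 1, h.hseg m F.a \ {m}, XL,
    cX.un (h.t_ear_conn e) (Touch.of_adj ⟨h.right_mem_hseg mH e.aH, ma.symm⟩
      (F.t_mem (Nat.zero_le _)) e.ea.symm), ?_, Or.inr ⟨pX, c, Set.disjoint_left.1 dX pX, m, mL, ?_⟩⟩
  · refine Anti.union_right ?_ (aF'.symm.mono Set.diff_subset le_rfl)
    intro y hy t ht
    exact ⟨fun d => Set.disjoint_left.1 dX hy.1 (d ▸ ht), fun a => hy.2 (uq y hy.1 t ht a).1⟩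
  · ext t
    constructor
    · rintro ⟨ht | ht, a⟩
      · exact (uq _ pX t ht a).2
      · exact (aF'.not_adj ht pX a.symm).elim
    · rintro rfl; exact ⟨Or.inl mT, pm.symm⟩

theorem t_child_unique {r t a c c' : V} (hr : r ∈ HH S I) (ht : t ∈ HH S I)
    (hc : c ∈ h.hseg r t) (hc' : c' ∈ h.hseg r t) (s1 : c ∈ h.Sub r a) (s2 : c' ∈ h.Sub r a)
    (e : G.Adj a c) (e' : G.Adj a c') : c = c' := by
  have aH := h.hseg_subset_H hr s1.1 s1.2
  have e1 := (h.mem_hseg_iff_hlen hr aH s1.1).1 s1.2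
  have e2 := (h.mem_hseg_iff_hlen hr aH s2.1).1 s2.2
  rw [(h.hlen_eq_one_iff aH s1.1).2 e] at e1
  rw [(h.hlen_eq_one_iff aH s2.1).2 e'] at e2
  rw [← (h.hpath_hlen_of_mem hr ht hc).2, ← (h.hpath_hlen_of_mem hr ht hc').2, e1, e2]

/-- if the neighbourhood on the hole is an edge, it is a triangle base on the left rail -/
theorem t_triL_of_tri (s : h.Sides u L R) {F F' : Ear V} (e : h.IsEar F) (e' : h.IsEar F')
    (ha : F.a ∈ L) (hb : F.b ∈ R) (ha' : F'.a ∈ L) (hb' : F'.b ∈ R)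
    (ap : Anti G F.set F'.set) (on : F.a ∈ h.hseg u F'.a)
    (t : Tri G (h.hseg F'.a F'.b ∪ F'.set) (F.f 0)) : h.TriL u F F'.a := by
  obtain ⟨x, y, exy, hN⟩ := t
  have aN : F.a ∈ Nb G (h.hseg F'.a F'.b ∪ F'.set) (F.f 0) :=
    ⟨Or.inl ((h.t_seg_split s ha' hb').2 (Or.inl on)), e.ea⟩
  have key : ∀ c, G.Adj F.a c → Nb G (h.hseg F'.a F'.b ∪ F'.set) (F.f 0) = {F.a, c} →
      h.TriL u F F'.a := by
    intro c ac hN
    have cN' : c ∈ Nb G (h.hseg F'.a F'.b ∪ F'.set) (F.f 0) := by rw [hN]; exact Or.inr rfl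
    have cT : c ∈ h.hseg F'.a F'.b := cN'.1.resolve_right fun d =>
      ap.not_adj (F.t_mem (Nat.zero_le _)) d cN'.2
    have cH := h.hseg_subset_H e'.aH e'.bH cT
    have cL : c ∈ L := by
      rcases h.t_ear_nbr s e ha hb (Nat.zero_le _) cH cN'.2 with ⟨-, d⟩ | ⟨-, d⟩
      · exact h.t_sub_side s ha d
      · exact (s.anti.not_adj ha (h.t_sub_side (h.t_symm s) hb d) ac).elim
    refine ⟨c, on, ?_, ac, (h.t_ear_nbrL s e ha hb (Nat.zero_le _) cL cN'.2).2, cN'.2,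
      fun y hy a => ?_⟩
    · rcases (h.t_seg_split s ha' hb').1 cT with d | d
      · exact d
      · exact (s.anti.notMem cL
          (h.t_seg_side (h.t_symm s) hb' d fun x => h.t_uL s (x ▸ cL))).elim
    · have : y ∈ Nb G (h.hseg F'.a F'.b ∪ F'.set) (F.f 0) :=
        ⟨Or.inl ((h.t_seg_split s ha' hb').2 (Or.inl hy)), a⟩
      rw [hN] at this
      exact this
  rw [hN] at aN
  rcases aN with d | d
  · exact key y (d ▸ exy) (by rw [hN, d])
  · rw [Set.mem_singleton_iff] at d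
    exact key x (d ▸ exy.symm) (by rw [hN, d, Set.pair_comm])

theorem t_single_side (s : h.Sides u L R) {F F' : Ear V} (e : h.IsEar F) (e' : h.IsEar F')
    (ha : F.a ∈ L) (hb : F.b ∈ R) (ha' : F'.a ∈ L) (hb' : F'.b ∈ R) (n0 : F.n = 0)
    (on : F.a ∈ h.hseg u F'.a) (on' : F.b ∈ h.hseg u F'.b)
    (nc : ¬ ∃ x₁ ∈ h.hseg F'.a F'.b, ∃ x₂ ∈ h.hseg F'.a F'.b, ∃ x₃ ∈ h.hseg F'.a F'.b,
      Anti G {x₁} {x₂} ∧ Anti G {x₁} {x₃} ∧ Anti G {x₂} {x₃} ∧
      G.Adj (F.f 0) x₁ ∧ G.Adj (F.f 0) x₂ ∧ G.Adj (F.f 0) x₃) :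
    h.TriL u F F'.a ∨ ∀ y ∈ h.hseg u F'.a, G.Adj (F.f 0) y → y = F.a := by
  have uH := h.t_uH s
  have key : ∀ y ∈ h.hseg u F'.a, G.Adj (F.f 0) y → y ≠ F.a →
      G.Adj F.a y ∧ y ∈ h.Sub u F.a := by
    intro y hy a ne
    have yH := h.hseg_subset_H uH e'.aH hy
    have yu : y ≠ u := by
      rintro rfl
      rcases h.t_ear_nbr s e ha hb (Nat.zero_le _) yH a with ⟨-, d⟩ | ⟨-, d⟩
      · exact h.t_uL s (h.t_sub_side s ha d)
      · exact h.t_uL (h.t_symm s) (h.t_sub_side (h.t_symm s) hb d)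
    have yL := h.t_seg_side s ha' hy yu
    refine ⟨?_, (h.t_ear_nbrL s e ha hb (Nat.zero_le _) yL a).2⟩
    by_contra c
    refine nc ⟨F.a, (h.t_seg_split s ha' hb').2 (Or.inl on), y,
      (h.t_seg_split s ha' hb').2 (Or.inl hy), F.b, (h.t_seg_split s ha' hb').2 (Or.inr on'),
      anti_singleton_singleton.2 ⟨ne.symm, c⟩, s.anti.mono (by simpa) (by simpa),
      s.anti.mono (by simpa) (by simpa), e.ea, a, ?_⟩
    have := e.eb
    rwa [n0] at this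
  by_cases c : ∃ y ∈ h.hseg u F'.a, G.Adj (F.f 0) y ∧ y ≠ F.a
  · obtain ⟨y, hy, a, ne⟩ := c
    obtain ⟨k1, k2⟩ := key y hy a ne
    refine Or.inl ⟨y, on, hy, k1, k2, a, fun y' hy' a' => ?_⟩
    by_cases d : y' = F.a
    · exact Or.inl d
    · obtain ⟨l1, l2⟩ := key y' hy' a' d
      exact Or.inr (h.t_child_unique uH e'.aH hy' hy l2 k2 l1 k1)
  · refine Or.inr fun y hy a => ?_
    by_contra d
    exact c ⟨y, hy, a, d⟩

/-- (TRI) -/
theorem tri_pair (s : h.Sides u L R) {F F' : Ear V} (e : h.IsEar F) (e' : h.IsEar F')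
    (ha : F.a ∈ L) (hb : F.b ∈ R) (ha' : F'.a ∈ L) (hb' : F'.b ∈ R)
    (ap : Anti G F.set F'.set) (na : F.a ∉ h.Sub u F'.a) (nb : F.b ∉ h.Sub u F'.b)
    (nc : F.n = 0 → F'.n = 0 ∧ ¬ h.Covers F' F) : h.TriL u F F'.a ∨ h.TriL u F.rev F'.b := by
  have s' := h.t_symm s
  have r := h.t_ear_rev e
  have r' := h.t_ear_rev e'
  have hO := h.t_ear_hole s e' ha' hb'
  have eO : h.hseg F'.rev.a F'.rev.b ∪ F'.rev.set = h.hseg F'.a F'.b ∪ F'.set := by
    rw [F'.t_set_rev]; exact congrArg (· ∪ F'.set) (h.hseg_symm e'.aH e'.bH)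
  obtain ⟨p, X, XL, cX, aX, hp⟩ := h.t_side_ext s e e' ha hb ha' hb' na
  obtain ⟨q, Y, YR, cY, aY, hq⟩ := h.t_side_ext s' r r' hb ha hb' ha' nb
  rw [eO] at aY
  rw [F.t_set_rev] at cY
  have f0 : F.rev.f 0 = F.f F.n := rfl
  have mem0 := F.t_mem (Nat.zero_le F.n)
  have memn := F.t_mem (le_refl F.n)
  have fO : ∀ x ∈ F.set, x ∉ h.hseg F'.a F'.b ∪ F'.set := by
    rintro x hx (c | c)
    · exact h.t_ear_out e hx (h.hseg_subset_H e'.aH e'.bH c)
    · exact ap.notMem hx c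
  -- a neighbour on the hole of a vertex of the ear
  have nbF : ∀ i, i ≤ F.n → ∀ y ∈ h.hseg F'.a F'.b ∪ F'.set, G.Adj (F.f i) y →
      (i = 0 ∧ y ∈ L ∧ F.a ∈ h.hseg u F'.a) ∨ (i = F.n ∧ y ∈ R ∧ F.b ∈ h.hseg u F'.b) := by
    intro i hi y hy a
    have yT := hy.resolve_right fun d => ap.not_adj (F.t_mem hi) d a
    have yH := h.hseg_subset_H e'.aH e'.bH yT
    have uH := h.t_uH s
    rcases h.t_ear_nbr s e ha hb hi yH a with ⟨c, d⟩ | ⟨c, d⟩
    · have yL := h.t_sub_side s ha d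
      refine Or.inl ⟨c, yL, ?_⟩
      rcases (h.t_seg_split s ha' hb').1 yT with g | g
      · exact h.hseg_subset_hseg uH e'.aH (h.left_mem_hseg uH e'.aH) g d.2
      · exact (s.anti.notMem yL (h.t_seg_side s' hb' g fun x => h.t_uL s (x ▸ yL))).elim
    · have yR := h.t_sub_side s' hb d
      refine Or.inr ⟨c, yR, ?_⟩
      rcases (h.t_seg_split s ha' hb').1 yT with g | g
      · exact (s.anti.notMem (h.t_seg_side s ha' g fun x => h.t_uL s' (x ▸ yR)) yR).elim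
      · exact h.hseg_subset_hseg uH e'.bH (h.left_mem_hseg uH e'.bH) g d.2
  by_cases pq : p = q
  · -- the one-vertex case
    have hp' : p = F.f 0 ∧ F.a ∈ h.hseg u F'.a := by
      rcases hp with c | ⟨c, -⟩
      · exact c
      · rcases hq with ⟨d, -⟩ | ⟨d, -⟩
        · exact (h.t_ear_out e memn (by rw [← f0, ← d, ← pq]; exact h.t_LH s (XL c))).elim
        · exact (s.anti.notMem (XL c) (pq ▸ YR d)).elim
    have hq' : q = F.f F.n ∧ F.b ∈ h.hseg u F'.b := by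
      rcases hq with c | ⟨c, -⟩
      · exact c
      · exact (h.t_ear_out e mem0 (by rw [← hp'.1, pq]; exact h.t_LH s' (YR c))).elim
    have n0 : F.n = 0 :=
      (e.ip.inj (Nat.zero_le _) le_rfl (by rw [← hp'.1, ← hq'.1, pq])).symm
    have ff : F.f F.n = F.f 0 := by rw [n0]
    obtain ⟨n0', nc⟩ := nc n0
    have nc1 : ¬ ∃ x₁ ∈ h.hseg F'.a F'.b, ∃ x₂ ∈ h.hseg F'.a F'.b, ∃ x₃ ∈ h.hseg F'.a F'.b,
        Anti G {x₁} {x₂} ∧ Anti G {x₁} {x₃} ∧ Anti G {x₂} {x₃} ∧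
        G.Adj (F.f 0) x₁ ∧ G.Adj (F.f 0) x₂ ∧ G.Adj (F.f 0) x₃ := fun c =>
      nc ⟨n0', n0, (h.t_seg_split s ha' hb').2 (Or.inl hp'.2),
        (h.t_seg_split s ha' hb').2 (Or.inr hq'.2), c⟩
    rcases h.t_single_side s e e' ha hb ha' hb' n0 hp'.2 hq'.2 nc1 with c | c
    · exact Or.inl c
    rcases h.t_single_side s' r r' hb ha hb' ha' n0 hq'.2 hp'.2 (by
      rw [f0, ff]
      have : h.hseg F'.rev.a F'.rev.b = h.hseg F'.a F'.b := h.hseg_symm e'.aH e'.bH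
      rw [this]; exact nc1) with d | d
    · exact Or.inr d
    refine (h.ehf.not_two hO (fO _ mem0) (s.anti.ne ha hb) (s.anti.not_adj ha hb) ?_).elim
    ext y
    constructor
    · rintro ⟨hy, a⟩
      have yT := hy.resolve_right fun d => ap.not_adj mem0 d a
      rcases (h.t_seg_split s ha' hb').1 yT with g | g
      · exact Or.inl (c y g a)
      · exact Or.inr (d y g (by rw [f0, ff]; exact a))
    · rintro (rfl | rfl)
      · exact ⟨Or.inl ((h.t_seg_split s ha' hb').2 (Or.inl hp'.2)), e.ea⟩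
      · exact ⟨Or.inl ((h.t_seg_split s ha' hb').2 (Or.inr hq'.2)), ff ▸ e.eb⟩
  -- two different ends
  have pL : p ∉ h.hseg F'.a F'.b ∪ F'.set ∧ Sees G p (h.hseg F'.a F'.b ∪ F'.set) ∧
      ∀ y ∈ h.hseg F'.a F'.b ∪ F'.set, G.Adj p y → y ∈ L := by
    rcases hp with ⟨c, d⟩ | ⟨c, -, d, m, mL, hm⟩
    · rw [c]
      refine ⟨fO _ mem0, ⟨F.a, Or.inl ((h.t_seg_split s ha' hb').2 (Or.inl d)), e.ea⟩,
        fun y hy a => ?_⟩
      rcases nbF 0 (Nat.zero_le _) y hy a with g | ⟨g1, -, g3⟩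
      · exact g.2.1
      · rcases hq with ⟨k, -⟩ | ⟨-, k, -⟩
        · exact (pq (by rw [c, k, f0, ← g1])).elim
        · exact (k g3).elim
    · refine ⟨?_, ?_, fun y hy a => ?_⟩
      · rintro (g | g)
        · exact d g
        · exact h.t_ear_out e' g (h.t_LH s (XL c))
      · have : m ∈ Nb G (h.hseg F'.a F'.b ∪ F'.set) p := by rw [hm]; rfl
        exact ⟨m, this.1, this.2⟩
      · have : y ∈ Nb G (h.hseg F'.a F'.b ∪ F'.set) p := ⟨hy, a⟩
        rw [hm] at this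
        exact this ▸ mL
  have qR : q ∉ h.hseg F'.a F'.b ∪ F'.set ∧ Sees G q (h.hseg F'.a F'.b ∪ F'.set) ∧
      ∀ y ∈ h.hseg F'.a F'.b ∪ F'.set, G.Adj q y → y ∈ R := by
    rcases hq with ⟨c, d⟩ | ⟨c, -, d, m, mL, hm⟩
    · rw [c, f0]
      refine ⟨fO _ memn, ⟨F.b, Or.inl ((h.t_seg_split s ha' hb').2 (Or.inr d)), e.eb⟩,
        fun y hy a => ?_⟩
      rcases nbF F.n le_rfl y hy a with ⟨g1, -, g3⟩ | g
      · rcases hp with ⟨k, -⟩ | ⟨-, k, -⟩
        · exact (pq (by rw [c, k, f0, g1])).elim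
        · exact (k g3).elim
      · exact g.2.1
    · rw [eO] at hm
      refine ⟨?_, ?_, fun y hy a => ?_⟩
      · rintro (g | g)
        · exact d (by
            have : h.hseg F'.rev.a F'.rev.b = h.hseg F'.a F'.b := h.hseg_symm e'.aH e'.bH
            rw [this]; exact g)
        · exact h.t_ear_out e' g (h.t_LH s' (YR c))
      · have : m ∈ Nb G (h.hseg F'.a F'.b ∪ F'.set) q := by rw [hm]; rfl
        exact ⟨m, this.1, this.2⟩
      · have : y ∈ Nb G (h.hseg F'.a F'.b ∪ F'.set) q := ⟨hy, a⟩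
        rw [hm] at this
        exact this ▸ mL
  have cZ : Conn G (X ∪ F.set ∪ (Y ∪ F.set)) :=
    cX.un cY (Touch.of_mem (Or.inr mem0) (Or.inr mem0))
  have hJ : Joined G (h.hseg F'.a F'.b ∪ F'.set) p q := by
    refine cZ.joined ?_ ?_ pq ?_
    · rcases hp with ⟨c, -⟩ | ⟨c, -⟩
      · exact Or.inl (Or.inr (c ▸ mem0))
      · exact Or.inl (Or.inl c)
    · rcases hq with ⟨c, -⟩ | ⟨c, -⟩
      · exact Or.inl (Or.inr (c ▸ memn))
      · exact Or.inr (Or.inl c)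
    · have kF : ∀ x ∈ F.set, x ≠ p → x ≠ q → ∀ y ∈ h.hseg F'.a F'.b ∪ F'.set,
          x ≠ y ∧ ¬ G.Adj x y := by
        rintro _ ⟨i, -, hi, rfl⟩ n1 n2 y hy
        refine ⟨fun c => fO _ (F.t_mem hi) (c ▸ hy), fun a => ?_⟩
        rcases nbF i hi y hy a with ⟨g1, -, g3⟩ | ⟨g1, -, g3⟩
        · rcases hp with ⟨k, -⟩ | ⟨-, k, -⟩
          · exact n1 (by rw [k, g1])
          · exact k g3
        · rcases hq with ⟨k, -⟩ | ⟨-, k, -⟩
          · exact n2 (by rw [k, g1, f0])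
          · exact k g3
      rintro x ⟨hx, nx⟩
      have n1 : x ≠ p := fun c => nx (Or.inl c)
      have n2 : x ≠ q := fun c => nx (Or.inr c)
      rcases hx with (c | c) | (c | c)
      · exact aX x ⟨c, n1⟩
      · exact kF x c n1 n2
      · exact aY x ⟨c, n2⟩
      · exact kF x c n1 n2
  have := h.ehf.pair hO pL.1 qR.1 hJ pL.2.1 qR.2.1
    (fun x hx a b => s.anti.notMem (pL.2.2 x hx a) (qR.2.2 x hx b)) (by
      intro a b ab h1 h2
      have m1 : a ∈ Nb G (h.hseg F'.a F'.b ∪ F'.set) p := by rw [h1]; rfl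
      have m2 : b ∈ Nb G (h.hseg F'.a F'.b ∪ F'.set) q := by rw [h2]; rfl
      exact s.anti.not_adj (pL.2.2 a m1.1 m1.2) (qR.2.2 b m2.1 m2.2) ab)
  by_cases tq : Tri G (h.hseg F'.a F'.b ∪ F'.set) q
  · right
    rcases hq with ⟨c, d⟩ | ⟨-, -, -, m, -, hm⟩
    · refine h.t_triL_of_tri s' r r' hb ha hb' ha' ?_ d (by rw [eO, ← c]; exact tq)
      rw [F.t_set_rev, F'.t_set_rev]; exact ap
    · rw [eO] at hm; exact (not_tri_of_single hm tq).elim
  · left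
    have tp := this.2 tq
    rcases hp with ⟨c, d⟩ | ⟨-, -, -, m, -, hm⟩
    · exact h.t_triL_of_tri s e e' ha hb ha' hb' ap d (c ▸ tp)
    · exact (not_tri_of_single hm tp).elim

end Setup

end Pool.Agent.Ehf
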