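import Pool.Agent.MP_3ad207_lc.H43.LinSpec
import Pool.Agent.MP_3ad207_lc.H24.Tri

/-! (TRI) and (BASE) for clean families. -/

set_option autoImplicit false

namespace Pool.Agent.Ehf

variable {V : Type*} {G : SimpleGraph V} {S I : Set V}

namespace Setup

variable (h : Setup G S I) {u : V} {L R : Set V}
include h

theorem t_sub_H (r v : V) : h.Sub r v ⊆ HH S I := fun _ hx => hx.1

theorem t_subO_sub (r v : V) : h.SubO r v ⊆ h.Sub r v := Set.diff_subset

theorem t_subO_H (r v : V) : h.SubO r v ⊆ HH S I := fun _ hx => hx.1.1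

theorem t_sub_antisymm {r x y : V} (hr : r ∈ HH S I) (h1 : x ∈ h.Sub r y) (h2 : y ∈ h.Sub r x) :
    x = y := by
  have e1 := (h.mem_hseg_iff_hlen hr h2.1 h1.1).1 h1.2
  have e2 := (h.mem_hseg_iff_hlen hr h1.1 h2.1).1 h2.2
  exact (h.hlen_eq_zero_iff h1.1 h2.1).1 (by omega)

theorem t_subO_trans {r x y z : V} (hr : r ∈ HH S I) (h1 : x ∈ h.Sub r y) (h2 : y ∈ h.SubO r z) :
    x ∈ h.SubO r z := by
  refine ⟨h.t_sub_trans hr h1 h2.1, fun c => h2.2 ?_⟩
  rw [Set.mem_singleton_iff] at c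
  subst c
  exact h.t_sub_antisymm hr h2.1 h1

theorem t_conn_sub {r v : V} (hr : r ∈ HH S I) (hv : v ∈ HH S I) : Conn G (h.Sub r v) := by
  refine conn_of_root (h.t_self_sub hr hv) fun x hx => ?_
  refine ((h.conn_hseg hv hx.1).rin (h.left_mem_hseg hv hx.1) (h.right_mem_hseg hv hx.1)).mono ?_
  intro y hy
  have yH := h.hseg_subset_H hv hx.1 hy
  refine ⟨yH, (h.mem_hseg_iff_hlen hr hv yH).2 ?_⟩
  have e1 := (h.mem_hseg_iff_hlen hr hv hx.1).1 hx.2
  have e2 := (h.mem_hseg_iff_hlen hv yH hx.1).1 hy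
  have e3 := h.hlen_triangle hr yH hx.1
  have e4 := h.hlen_triangle hr hv yH
  omega

theorem t_exit {r v y y' : V} (hr : r ∈ HH S I) (hy : y ∈ h.Sub r v) (hy' : y' ∈ HH S I)
    (n : y' ∉ h.Sub r v) (e : G.Adj y y') : y = v := by
  rcases h.hseg_subset_union hr hy' hy.1 hy.2 with c | c
  · exact (n ⟨hy', c⟩).elim
  · rw [h.hseg_of_adj hy' hy.1 e.symm] at c
    rcases c with c | c
    · exact (n (by rw [c]; exact h.t_self_sub hr hy')).elim
    · exact (Set.mem_singleton_iff.1 c).symm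

theorem t_anti_subO {r v : V} (hr : r ∈ HH S I) {X : Set V} (hX : X ⊆ HH S I)
    (n : ∀ y ∈ X, y ∉ h.Sub r v) : Anti G (h.SubO r v) X := fun y hy y' hy' =>
  ⟨fun c => n y' hy' (c ▸ hy.1), fun e => hy.2 (h.t_exit hr hy.1 (hX hy') (n y' hy') e)⟩

theorem t_root_change {r r' v : V} (hr : r ∈ HH S I) (hr' : r' ∈ HH S I) (n : v ∉ h.hseg r r') :
    h.Sub r v = h.Sub r' v := by
  ext y
  constructor
  · rintro ⟨a, b⟩
    exact ⟨a, (h.hseg_subset_union hr hr' a b).resolve_left n⟩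
  · rintro ⟨a, b⟩
    exact ⟨a, (h.hseg_subset_union hr' hr a b).resolve_left (h.hseg_symm hr hr' ▸ n)⟩

theorem t_sides_white {r v : V} (hr : r ∈ HH S I) (hv : v ∈ S \ I) (ne : r ≠ v) :
    h.Sides v (h.SubO r v) (HH S I \ h.Sub r v) := by
  have vH := white_mem_HH hv
  have e1 : HH S I \ h.Sub r v = comp G (HH S I \ {v}) r := by
    ext y
    constructor
    · rintro ⟨a, b⟩
      exact (h.mem_comp_iff hr a).2 fun c => b ⟨a, c⟩
    · intro a
      have yH := (comp_subset _ _ a).1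
      exact ⟨yH, fun c => (h.mem_comp_iff hr yH).1 a c.2⟩
  have cov : h.SubO r v ∪ (HH S I \ h.Sub r v) = HH S I \ {v} := by
    ext y
    constructor
    · rintro (a | a)
      · exact ⟨a.1.1, a.2⟩
      · exact ⟨a.1, fun c => a.2 (by rw [Set.mem_singleton_iff.1 c]; exact h.t_self_sub hr vH)⟩
    · rintro ⟨a, b⟩
      by_cases c : y ∈ h.Sub r v
      · exact Or.inl ⟨c, b⟩
      · exact Or.inr ⟨a, c⟩
  have key : ∀ a b : V, a ∈ HH S I \ {v} → b ∈ HH S I \ {v} →
      Anti G (comp G (HH S I \ {v}) a) (comp G (HH S I \ {v}) b) →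
      comp G (HH S I \ {v}) a ∪ comp G (HH S I \ {v}) b = HH S I \ {v} →
      r ∈ comp G (HH S I \ {v}) a → Conn G (h.SubO r v) := by
    intro a b _ hb an cv ra
    have e2 : comp G (HH S I \ {v}) r = comp G (HH S I \ {v}) a := comp_eq_of_mem ra
    have : h.SubO r v = comp G (HH S I \ {v}) b := by
      ext y
      constructor
      · intro hy
        have : y ∈ comp G (HH S I \ {v}) a ∪ comp G (HH S I \ {v}) b := by
          rw [cv]; exact ⟨hy.1.1, hy.2⟩
        refine this.resolve_left fun c => ?_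
        rw [← e2, ← e1] at c
        exact c.2 hy.1
      · intro hy
        have : y ∈ h.SubO r v ∪ (HH S I \ h.Sub r v) := cov ▸ comp_subset _ _ hy
        refine this.resolve_right fun c => ?_
        rw [e1, e2] at c
        exact an.notMem c hy
    rw [this]; exact conn_comp hb
  obtain ⟨a, b, -, ha, hb, ea, eb, -, an, cv⟩ := h.white_split hv
  have ha' : a ∈ HH S I \ {v} := ⟨black_mem_HH ha, ea.ne.symm⟩
  have hb' : b ∈ HH S I \ {v} := ⟨black_mem_HH hb, eb.ne.symm⟩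
  refine ⟨hv, ?_, e1 ▸ conn_comp ⟨hr, ne⟩,
    h.t_anti_subO hr Set.diff_subset fun y hy => hy.2, cov⟩
  have : r ∈ comp G (HH S I \ {v}) a ∪ comp G (HH S I \ {v}) b := by
    rw [cv]; exact ⟨hr, ne⟩
  rcases this with c | c
  · exact key a b ha' hb' an cv c
  · exact key b a hb' ha' an.symm (Set.union_comm _ _ ▸ cv) c

theorem t_sees_side (s : h.Sides u L R) : Sees G u L := by
  obtain ⟨a, ha⟩ := s.cL.nonempty
  have ua : u ≠ a := fun c => h.t_uL s (c ▸ ha)
  have := h.hpath_one_mem (h.t_uH s) (h.t_LH s ha) ua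
  exact ⟨_, h.t_seg_side s ha this.1 this.2, h.adj_hpath_one (h.t_uH s) (h.t_LH s ha) ua⟩

theorem t_conn_subO {r v : V} (hr : r ∈ HH S I) (hv : v ∈ S \ I) (ne : r ≠ v) :
    Conn G (h.SubO r v) := (h.t_sides_white hr hv ne).cL

theorem t_sees_subO {r v : V} (hr : r ∈ HH S I) (hv : v ∈ S \ I) (ne : r ≠ v) :
    Sees G v (h.SubO r v) := h.t_sees_side (h.t_sides_white hr hv ne)

theorem t_root_notMem {r v : V} (hr : r ∈ HH S I) (ne : r ≠ v) : r ∉ h.Sub r v := fun c => by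
  have := c.2
  rw [h.hseg_self hr] at this
  exact ne (Set.mem_singleton_iff.1 this).symm

/-- the part between two whites: connected and seen by both -/
theorem t_between {r g v : V} (hr : r ∈ HH S I) (hg : g ∈ S \ I) (hv : v ∈ S \ I) (ne : r ≠ g)
    (gv : v ∈ h.SubO r g) : Conn G (h.SubO r g \ h.Sub r v) ∧
      Sees G g (h.SubO r g \ h.Sub r v) ∧ Sees G v (h.SubO r g \ h.Sub r v) := by
  have gH := white_mem_HH hg
  have vH := white_mem_HH hv
  have rv : r ≠ v := fun c => h.t_root_notMem hr ne (c ▸ gv.1)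
  have s1 := h.t_sides_white hr hg ne
  have s2 := h.t_sides_white hr hv rv
  obtain ⟨c, hc, ec⟩ := h.t_sees_side s1
  obtain ⟨d, hd, ed⟩ := h.t_sees_side (h.t_symm s2)
  have gn : g ∉ h.Sub r v := fun x => gv.2 (h.t_sub_antisymm hr gv.1 x)
  have cm : c ∈ h.SubO r g \ h.Sub r v := ⟨hc, fun x =>
    h.white_not_adj hg hv (h.t_exit hr x gH gn ec.symm ▸ ec)⟩
  have dm : d ∈ h.SubO r g \ h.Sub r v := by
    refine ⟨⟨?_, fun x => h.white_not_adj hv hg ((Set.mem_singleton_iff.1 x) ▸ ed)⟩, hd.2⟩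
    by_contra x
    exact gv.2 (h.t_exit hr gv.1 hd.1 x ed)
  refine ⟨?_, ⟨c, cm, ec⟩, ⟨d, dm, ed⟩⟩
  have := h.conn_inter s1.cL s2.cR (h.t_subO_H _ _) Set.diff_subset ⟨c, hc, hc.1.1, cm.2⟩
  have e : h.SubO r g ∩ (HH S I \ h.Sub r v) = h.SubO r g \ h.Sub r v := by
    ext y; exact ⟨fun a => ⟨a.1, a.2.2⟩, fun a => ⟨a.1, a.1.1.1, a.2⟩⟩
  rwa [e] at this

/-- different branches at a black vertex -/
theorem t_branch_disj {x g g' y : V} (hx : x ∈ HH S I) (e : G.Adj x g) (e' : G.Adj x g')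
    (ne : g ≠ g') (a : y ∈ h.Sub x g) : y ∉ h.Sub x g' := fun b =>
  have gH := h.hseg_subset_H hx a.1 a.2
  have gH' := h.hseg_subset_H hx b.1 b.2
  ne (h.t_child_unique hx a.1 a.2 b.2 ⟨gH, h.left_mem_hseg hx gH⟩ ⟨gH', h.left_mem_hseg hx gH'⟩
    e e')

theorem t_branch_anti {x g g' : V} (hx : x ∈ I \ S) (e : G.Adj x g) (e' : G.Adj x g')
    (ne : g ≠ g') : Anti G (h.Sub x g) (h.Sub x g') := by
  have xH := black_mem_HH hx
  intro y a y' b
  have n1 := h.t_branch_disj xH e e' ne a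
  have n2 := h.t_branch_disj xH e' e ne.symm b
  refine ⟨fun c => n1 (c ▸ b), fun c => ?_⟩
  have c1 := h.t_exit xH a b.1 n2 c
  have c2 := h.t_exit xH b a.1 n1 c.symm
  subst c1 c2
  exact h.white_not_adj (h.white_of_adj_black hx a.1 e) (h.white_of_adj_black hx b.1 e') c

theorem t_root_anti {x g : V} (hx : x ∈ HH S I) (ne : x ≠ g) : Anti G {x} (h.SubO x g) :=
  (h.t_anti_subO hx (by simpa using hx) (by simpa using h.t_root_notMem hx ne)).symm

variable {n : ℕ} {F : ℕ → Ear V} {al be : ℕ → V}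

theorem t_clean_ear (c : h.Clean u L R n F al be) {i : ℕ} (hi : i < n) : h.IsEar (F i) :=
  c.good.1.1 i (Finset.mem_range.2 hi)

theorem t_clean_anti (c : h.Clean u L R n F al be) {i j : ℕ} (hi : i < n) (hj : j < n)
    (ne : i ≠ j) : Anti G (F i).set (F j).set :=
  c.good.1.2 i (Finset.mem_range.2 hi) j (Finset.mem_range.2 hj) ne

theorem t_clean_a (s : h.Sides u L R) (c : h.Clean u L R n F al be) {i : ℕ} (hi : i < n) :
    (F i).a ∈ L := h.t_sub_side s (c.nl.mem i hi) (c.nl.top i hi)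

theorem t_clean_b (s : h.Sides u L R) (c : h.Clean u L R n F al be) {i : ℕ} (hi : i < n) :
    (F i).b ∈ R := h.t_sub_side (h.t_symm s) (c.nr.mem i hi) (c.nr.top i hi)

theorem t_star_not {a : ℕ → V} (hu : u ∈ HH S I) (nl : h.Nodes u L n a al) (st : h.Star n a al)
    {i k : ℕ} (hi : i < n) (hk : k < n) (ne : i ≠ k) : a i ∉ h.Sub u (a k) := by
  intro c
  obtain ⟨e1, -, e3⟩ := st i k hi hk
  have e2 := (st k i hk hi).2.1
  have t1 := nl.top i hi
  have t2 := nl.top k hk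
  rw [← e1] at t2 e2
  have aH := h.hseg_subset_H hu t1.1 t1.2
  have d1 := (h.mem_hseg_iff_hlen hu aH t1.1).1 t1.2
  have d2 := (h.mem_hseg_iff_hlen hu aH t2.1).1 t2.2
  have d3 := (h.mem_hseg_iff_hlen t1.1 aH t2.1).1 (e3 ne)
  have d4 := (h.mem_hseg_iff_hlen hu t2.1 t1.1).1 c.2
  have d5 := h.hlen_symm t1.1 t2.1
  have d6 := h.hlen_symm t1.1 aH
  exact e2 ((h.hlen_eq_zero_iff aH t2.1).1 (by omega)).symm

theorem t_top_not {a : ℕ → V} {X : ℕ → Set V} (hu : u ∈ HH S I) (nl : h.Nodes u L n a al)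
    (kl : h.Spread u n X al ∨ h.Star n a al) {i k : ℕ} (hik : i < k) (hk : k < n)
    (t : Touch G (X i) {a i}) : a i ∉ h.Sub u (a k) := by
  rcases kl with sp | st
  · intro c
    exact not_touch.2 (sp i k hik hk).2
      (t.mono le_rfl (by simpa using h.t_sub_trans hu c (nl.top k hk)))
  · exact h.t_star_not hu nl st (by omega) hk hik.ne

end Setup

theorem triStmt : TriStmt := by
  intro V _ G S I h u L R n F al be i k s c hik hk
  have hi : i < n := by omega
  have e := h.t_clean_ear c hi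
  have := h.tri_pair s e (h.t_clean_ear c hk) (h.t_clean_a s c hi) (h.t_clean_b s c hi)
    (h.t_clean_a s c hk) (h.t_clean_b s c hk) (h.t_clean_anti c hi hk hik.ne)
    (h.t_top_not (h.t_uH s) c.nl c.kl hik hk
      (Touch.of_adj ((F i).t_mem (Nat.zero_le _)) rfl e.ea))
    (h.t_top_not (h.t_uH s) c.nr c.kr hik hk (Touch.of_adj ((F i).t_mem le_rfl) rfl e.eb))
    fun n0 => ⟨by
      rcases c.same with d | d
      · exact d k hk
      · have := d i hi; omega,
      (c.good.2 k (Finset.mem_range.2 hk) i (Finset.mem_range.2 hi) hik.ne').2.2⟩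
  rcases this with ⟨y, a1, a2, a3, a4, a5, a6⟩ | ⟨y, a1, a2, a3, a4, a5, a6⟩
  · exact Or.inl ⟨y, a3, a1, a2, a4, a5, a6⟩
  · exact Or.inr ⟨y, a3, a1, a2, a4, a5, a6⟩

namespace Setup

variable (h : Setup G S I) {u : V} {L R : Set V}
include h

/-- the door at a triangle base -/
theorem t_door (s : h.Sides u L R) {F : Ear V} {t y v : V} (ha : F.a ∈ L) (ht : t ∈ L)
    (b : h.BaseAt u F t y) (tv : t ∈ h.Sub u v) (yv : y ∉ h.Sub u v) :
    ∃ gin x gout, h.Door gin x gout ∧ x ∈ L ∧ x ∈ h.Sub u gin ∧ gout ∈ h.Sub u x ∧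
      v ∈ h.Sub u gout ∧ ((F.a = gin ∧ y = x) ∨ (F.a = x ∧ y = gout)) := by
  have uH := h.t_uH s
  have tH := h.t_LH s ht
  have aH := h.t_LH s ha
  have yH := b.below.1
  have vH := h.hseg_subset_H uH tH tv.2
  have ua : u ≠ F.a := fun c => h.t_uL s (c ▸ ha)
  obtain ⟨a1, a2⟩ := h.hpath_hlen_of_mem uH tH b.aOn
  obtain ⟨y1, y2⟩ := h.hpath_hlen_of_mem uH tH b.yOn
  obtain ⟨v1, v2⟩ := h.hpath_hlen_of_mem uH tH tv.2
  have ya : h.hlen u y = h.hlen u F.a + 1 := by
    have := (h.mem_hseg_iff_hlen uH aH yH).1 b.below.2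
    rwa [(h.hlen_eq_one_iff aH yH).2 b.adj] at this
  have hp := h.hpath_isIP uH tH
  have sub : ∀ i j, i ≤ j → j ≤ h.hlen u t → h.hpath u t j ∈ h.Sub u (h.hpath u t i) := by
    intro i j hij hj
    refine ⟨h.hpath_mem uH tH hj, ?_⟩
    rw [(h.hpath_sub_left uH tH hj).2.2]
    exact apply_mem_seg (Nat.zero_le _) hij
  have vy : h.hlen u y < h.hlen u v := by
    by_contra c
    exact yv (by rw [← y2, ← v2]; exact sub _ _ (by omega) y1)
  have a0 := h.hlen_pos uH aH ua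
  have yL : y ∈ L := h.t_sub_side s ha b.below
  rcases h.adj_colour aH yH b.adj with ⟨c1, c2⟩ | ⟨c1, c2⟩
  · have e1 : G.Adj F.a (h.hpath u t (h.hlen u F.a - 1)) := by
      have := hp.adj_pred a0 a1
      rwa [a2] at this
    refine ⟨h.hpath u t (h.hlen u F.a - 1), F.a, y,
      ⟨c1, h.white_of_adj_black c1 (h.hpath_mem uH tH (by omega)) e1, c2, ?_, e1, b.adj⟩, ha,
      ?_, b.below, ?_, Or.inr ⟨rfl, rfl⟩⟩
    · have := hp.ne (i := h.hlen u F.a - 1) (by omega) y1 (by omega)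
      rwa [y2] at this
    · have := sub (h.hlen u F.a - 1) _ (by omega) a1
      rwa [a2] at this
    · have := sub _ _ vy.le v1
      rwa [y2, v2] at this
  · have e1 : G.Adj y (h.hpath u t (h.hlen u y + 1)) := by
      have := hp.adj_succ (show h.hlen u y < h.hlen u t by omega)
      rwa [y2] at this
    refine ⟨F.a, y, h.hpath u t (h.hlen u y + 1),
      ⟨c2, c1, h.white_of_adj_black c2 (h.hpath_mem uH tH (by omega)) e1, ?_, b.adj.symm, e1⟩, yL,
      b.below, ?_, ?_, Or.inl ⟨rfl, rfl⟩⟩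
    · have := hp.ne (j := h.hlen u y + 1) a1 (by omega) (by omega)
      rwa [a2] at this
    · have := sub (h.hlen u y) (h.hlen u y + 1) (by omega) (by omega)
      rwa [y2] at this
    · have := sub (h.hlen u y + 1) _ (by omega) v1
      rwa [v2] at this

/-- the ear with the triangle base has no neighbour below the outer white of the door -/
theorem t_base_anti (s : h.Sides u L R) {F F' : Ear V} (e : h.IsEar F) (e' : h.IsEar F')
    (ha : F.a ∈ L) (hb : F.b ∈ R) (ha' : F'.a ∈ L) (hb' : F'.b ∈ R) (ap : Anti G F.set F'.set)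
    {y g : V} (b : h.BaseAt u F F'.a y) (hg : g ∈ S \ I) (gy : g ∈ h.Sub u y)
    (tg : F'.a ∈ h.SubO u g) (an : Anti G F.set (h.Sub u F'.a)) : Anti G F.set (h.SubO u g) := by
  have uH := h.t_uH s
  have s' := h.t_symm s
  have tH := e'.aH
  have yL : y ∈ L := h.t_sub_side s ha b.below
  have gL : g ∈ L := h.t_sub_side s yL gy
  have gH := h.t_LH s gL
  rintro _ ⟨i, -, hi, rfl⟩ z hz
  refine ⟨fun c => e.out i hi (c ▸ hz.1.1), fun a => ?_⟩
  have zL : z ∈ L := h.t_sub_side s gL hz.1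
  have zH := hz.1.1
  obtain ⟨rfl, -⟩ := h.t_ear_nbrL s e ha hb hi zL a
  have mem0 := F.t_mem (Nat.zero_le F.n)
  have off : ∀ w ∈ h.SubO u g, w ∈ h.hseg u F'.a → ¬ G.Adj (F.f 0) w := by
    intro w hw w1 a
    rcases b.only w w1 a with c | c
    · subst c
      exact hw.2 (h.t_sub_antisymm uH hw.1 (h.t_sub_trans uH gy b.below))
    · subst c
      exact hw.2 (h.t_sub_antisymm uH hw.1 gy)
  have zt : z ∉ h.Sub u F'.a := fun c => an.not_adj mem0 c a
  obtain ⟨m, m1, m2, m3, an1, an2, an3⟩ := h.exists_median uH tH zH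
  have mH := h.hseg_subset_H uH tH m1
  have mz : m ≠ z := fun c => off z hz (c ▸ m1) a
  have mt : m ≠ F'.a := fun c => zt ⟨zH, c ▸ m2⟩
  -- the median lies below `g`
  have cU := h.t_conn_subO uH hg fun c => h.t_uL s (c ▸ gL)
  have mg : m ∈ h.SubO u g := h.hseg_subset cU (h.t_subO_H _ _) tg hz m3
  have mL : m ∈ L := h.t_sub_side s gL mg.1
  have my : m ∈ h.SubO u y := by
    refine ⟨h.t_sub_trans uH mg.1 gy, fun c => mg.2 ?_⟩
    rw [Set.mem_singleton_iff] at c
    subst c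
    exact h.t_sub_antisymm uH mg.1 gy
  have yH := h.t_LH s yL
  have ym : m ≠ y := my.2
  have X1u : h.hseg m y \ {m} ⊆ h.hseg m u \ {m} := fun w hw =>
    ⟨h.hseg_subset_hseg mH uH (h.left_mem_hseg mH uH) (h.hseg_symm uH mH ▸ my.1.2) hw.1, hw.2⟩
  have X1L : h.hseg m y \ {m} ⊆ L := fun w hw => h.hseg_subset s.cL (h.t_LH s) mL yL hw.1
  have X2L : h.hseg m z \ {m} ⊆ L := fun w hw => h.hseg_subset s.cL (h.t_LH s) mL zL hw.1
  have tail : ∀ X, X ⊆ L → Anti G X (seg F.f 1 F.n) := by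
    rintro X hX w hw _ ⟨k, k1, k2, rfl⟩
    refine ⟨fun c => e.out k k2 (c ▸ h.t_LH s (hX hw)), fun c => ?_⟩
    have := (h.t_ear_nbrL s e ha hb k2 (hX hw) c.symm).1
    omega
  have aF' : ∀ X, X ⊆ L → (∀ w ∈ X, w ∉ h.Sub u F'.a) → Anti G X F'.set := fun X hX hn =>
    (h.t_ear_anti s e' ha' hb' (hX.trans (h.t_LH s)) hn fun w hw c =>
      s.anti.notMem (hX hw) (h.t_sub_side s' hb' c)).symm
  have cT := h.conn_hseg_diff_left mH tH mt
  have c3 : Conn G ((h.hseg m F'.a \ {m}) ∪ F'.set ∪ R) :=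
    (cT.un (h.t_ear_conn e') (Touch.of_adj ⟨h.right_mem_hseg mH tH, mt.symm⟩
      (F'.t_mem (Nat.zero_le _)) e'.ea.symm)).un s.cR
      (Touch.of_adj (Or.inr (F'.t_mem le_rfl)) hb' e'.eb)
  have c4 : Conn G ((h.hseg m F'.a \ {m}) ∪ F'.set ∪ R ∪ seg F.f 1 F.n) ∧
      F.f 0 ∈ cN G ((h.hseg m F'.a \ {m}) ∪ F'.set ∪ R ∪ seg F.f 1 F.n) := by
    rcases Nat.eq_zero_or_pos F.n with n0 | n0
    · rw [seg_eq_empty (show F.n < 1 by omega), Set.union_empty]
      exact ⟨c3, Or.inr ⟨F.b, Or.inr hb, by have := e.eb; rwa [n0] at this⟩⟩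
    · exact ⟨c3.un (e.ip.conn_seg n0 le_rfl)
        (Touch.of_adj (Or.inr hb) (apply_mem_seg n0 le_rfl) e.eb.symm),
        Or.inr ⟨F.f 1, Or.inr (apply_mem_seg le_rfl n0), e.ip.adj_succ n0⟩⟩
  refine h.ehf.theta (u := F.f 0) (v := m) (fun c => e.out 0 (Nat.zero_le _) (c ▸ mH))
    (off m mg m1) (h.conn_hseg_diff_left mH yH ym) (h.conn_hseg_diff_left mH zH mz) c4.1
    (an2.mono X1u le_rfl)
    ((((an1.mono X1u le_rfl).union_right (aF' _ X1L fun w hw c => ?_)).union_right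
      (s.anti.mono X1L le_rfl)).union_right (tail _ X1L))
    (((an3.symm.union_right (aF' _ X2L fun w hw c => ?_)).union_right
      (s.anti.mono X2L le_rfl)).union_right (tail _ X2L))
    (Or.inr ⟨y, ⟨h.right_mem_hseg mH yH, ym.symm⟩, b.ey⟩)
    (Or.inr (h.sees_hseg_diff_left mH yH ym))
    (Or.inr ⟨z, ⟨h.right_mem_hseg mH zH, mz.symm⟩, a⟩)
    (Or.inr (h.sees_hseg_diff_left mH zH mz)) c4.2
    (Or.inr ((h.sees_hseg_diff_left mH tH mt).mono
      (Set.subset_union_left.trans (Set.subset_union_left.trans Set.subset_union_left))))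
  · have w1 : w ∈ h.hseg u m := h.hseg_symm mH uH ▸ (X1u hw).1
    exact mt (h.t_sub_antisymm uH (h.t_sub_trans uH ⟨mH, w1⟩ c) ⟨tH, m1⟩)
  · exact zt (h.t_sub_trans uH ⟨zH, h.hseg_subset_hseg uH zH m2 (h.right_mem_hseg uH zH) hw.1⟩ c)

end Setup

theorem baseStmt : BaseStmt := by
  intro V _ G S I h u L R n F al be i y s c hn b
  have uH := h.t_uH s
  have s' := h.t_symm s
  have hi : i < n := by omega
  have e := h.t_clean_ear c hi
  have ha := h.t_clean_a s c hi
  have hb := h.t_clean_b s c hi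
  have mem0 := (F i).t_mem (Nat.zero_le _)
  have sp : h.Spread u n (fun i => (F i).set) al := c.kl.resolve_right fun st =>
    h.t_star_not uH c.nl st (show i + 2 < n by omega) hi (by omega)
      ⟨(h.t_clean_ear c (by omega)).aH, b.aOn⟩
  refine ⟨sp, ?_⟩
  have a1 : Anti G (F i).set (h.Sub u (al (i + 1))) := (sp i (i + 1) (by omega) (by omega)).2
  have v2 : al (i + 2) ∈ h.SubO u (al (i + 1)) :=
    ⟨c.nl.desc _ _ (by omega) (by omega), (sp (i + 1) (i + 2) (by omega) (by omega)).1⟩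
  have top2 : ∀ j, i + 2 ≤ j → j < n → (F j).a ∈ h.SubO u (al (i + 1)) := by
    intro j h1 h2
    refine h.t_subO_trans uH (c.nl.top j h2) ?_
    rcases Nat.eq_or_lt_of_le h1 with rfl | h3
    · exact v2
    · exact h.t_subO_trans uH (c.nl.desc _ _ h3 h2) v2
  obtain ⟨gin, x, gout, d, xL, x1, g1, v1, hc⟩ := h.t_door s ha (h.t_clean_a s c (by omega)) b
    (top2 (i + 2) le_rfl (by omega)).1 fun z => a1.not_adj mem0 z b.ey
  have xH := h.t_LH s xL
  have gL : gout ∈ L := h.t_sub_side s xL g1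
  have topU : ∀ j, i + 2 ≤ j → j < n → (F j).a ∈ h.SubO u gout := fun j h1 h2 =>
    ⟨h.t_sub_trans uH (top2 j h1 h2).1 v1, fun z => (top2 j h1 h2).2 (h.t_sub_antisymm uH
      (top2 j h1 h2).1 ((Set.mem_singleton_iff.1 z) ▸ v1))⟩
  have gy : gout ∈ h.Sub u y := by
    rcases hc with ⟨-, z⟩ | ⟨-, z⟩
    · rw [z]; exact g1
    · rw [z]; exact h.t_self_sub uH (h.t_LH s gL)
  have aU : Anti G (F i).set (h.SubO u gout) :=
    h.t_base_anti s e (h.t_clean_ear c (show i + 2 < n by omega)) ha hb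
      (h.t_clean_a s c (by omega)) (h.t_clean_b s c (by omega))
      (h.t_clean_anti c hi (by omega) (by omega)) b d.w2 gy (topU _ le_rfl (by omega))
      (a1.mono le_rfl fun z hz => h.t_sub_trans uH hz (top2 _ le_rfl (by omega)).1)
  refine ⟨gin, x, gout, d, xL, hc.imp And.left And.left, x1, g1, v1, fun η hη ηR ηg bη => ?_⟩
  have ηH := white_mem_HH hη
  have ginH := white_mem_HH d.w1
  have goutH := white_mem_HH d.w2
  have rc : h.Sub u gout = h.Sub x gout := h.t_root_change uH xH fun z =>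
    d.a2.ne (h.t_sub_antisymm uH ⟨xH, z⟩ g1)
  have rc' : h.SubO u gout = h.SubO x gout := congrArg (· \ {gout}) rc
  rw [rc'] at aU topU ⊢
  have ug : u ∈ h.Sub x gin := ⟨uH, h.hseg_symm uH xH ▸ x1.2⟩
  have ηin : η ∈ h.SubO x gin := by
    refine ⟨?_, ηg⟩
    rcases ηR with z | z
    · rw [z]; exact ug
    · exact h.t_sub_trans xH ⟨ηH, h.t_mid s xL z⟩ ug
  have xη : x ≠ η := black_ne_white d.black hη
  obtain ⟨cM, gM, ηM⟩ := h.t_between xH d.w1 hη d.a1.ne ηin
  have cU := h.t_conn_subO xH d.w2 d.a2.ne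
  have cS := h.t_conn_subO xH hη xη
  have br := h.t_branch_anti d.black d.a2 d.a1 d.ne.symm
  have Sin : h.Sub x η ⊆ h.SubO x gin := fun z hz => h.t_subO_trans xH hz ηin
  have SinO : h.SubO x η ⊆ h.SubO x gin := (h.t_subO_sub _ _).trans Sin
  -- the right neighbours of the later ears
  have rS : ∀ j, i ≤ j → j < n → h.Sub u (F j).b ⊆ h.SubO x η := by
    intro j h1 h2 z hz
    have beR := c.nr.mem i hi
    have z1 : z ∈ h.Sub u (be i) := by
      refine h.t_sub_trans uH hz ?_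
      rcases Nat.eq_or_lt_of_le h1 with rfl | h3
      · exact c.nr.top _ h2
      · exact h.t_sub_trans uH (c.nr.top j h2) (c.nr.desc _ _ h3 h2)
    rw [h.t_root_change uH xH fun w => s.anti.notMem
      (h.t_seg_side s xL w fun q => h.t_uL s' (q ▸ beR)) beR] at z1
    exact h.t_subO_trans xH z1 bη
  -- the left neighbours of the ear with the triangle
  have lS : ∀ z ∈ h.Sub u (F i).a, z ∉ h.SubO x gin := by
    intro z hz w
    rcases hc with ⟨q, -⟩ | ⟨q, -⟩
    · rw [q] at hz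
      have un : u ≠ gin := fun r => h.t_uL s (by rw [r, ← q]; exact ha)
      exact (h.hseg_subset (h.t_conn_subO xH d.w1 d.a1.ne) (h.t_subO_H _ _) ⟨ug, un⟩ w hz.2).2 rfl
    · rw [q] at hz
      exact h.t_root_notMem xH d.a1.ne
        (h.hseg_subset (h.t_conn_sub xH ginH) (h.t_sub_H _ _) ug w.1 hz.2)
  have aM : Anti G (F i).set (h.SubO x gin \ h.Sub x η) :=
    h.t_ear_anti s e ha hb (fun z hz => hz.1.1.1) (fun z hz w => lS z w hz.1)
      fun z hz w => hz.2 (rS i le_rfl hi w).1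
  have aη : Anti G (F i).set {η} :=
    h.t_ear_anti s e ha hb (by simpa using ηH) (by
      rintro z rfl w; exact lS _ w ηin) (by
      rintro z rfl w; exact (rS i le_rfl hi w).2 rfl)
  have sT : seg (F i).f 1 (F i).n ⊆ (F i).set := seg_mono (Nat.zero_le _) le_rfl
  have s0 : ({(F i).f 0} : Set V) ⊆ (F i).set := by simpa using mem0
  have tail : ∀ X, X ⊆ insert u L → Anti G X (seg (F i).f 1 (F i).n) := by
    rintro X hX w hw _ ⟨k, k1, k2, rfl⟩
    have wH : w ∈ HH S I := by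
      rcases hX hw with q | q
      · exact q ▸ uH
      · exact h.t_LH s q
    refine ⟨fun q => e.out k k2 (q ▸ wH), fun q => ?_⟩
    rcases h.t_ear_nbr s e ha hb k2 wH q.symm with ⟨r, -⟩ | ⟨-, r⟩
    · omega
    · have := h.t_sub_side s' hb r
      rcases hX hw with q | q
      · exact h.t_uL s' (q ▸ this)
      · exact s.anti.notMem q this
  have ginL : gin ∈ insert u L := by
    by_cases q : gin = u
    · exact Or.inl q
    · exact Or.inr (h.t_seg_side s xL x1.2 q)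
  have c4 : Conn G (h.SubO x η ∪ seg (F i).f 1 (F i).n) ∧
      Sees G ((F i).f 0) (h.SubO x η ∪ seg (F i).f 1 (F i).n) := by
    have bS := rS i le_rfl hi (h.t_self_sub uH e.bH)
    rcases Nat.eq_zero_or_pos (F i).n with n0 | n0
    · rw [seg_eq_empty (show (F i).n < 1 by omega), Set.union_empty]
      exact ⟨cS, (F i).b, bS, by have := e.eb; rwa [n0] at this⟩
    · exact ⟨cS.un (e.ip.conn_seg n0 le_rfl)
        (Touch.of_adj bS (apply_mem_seg n0 le_rfl) e.eb.symm),
        (F i).f 1, Or.inr (apply_mem_seg le_rfl n0), e.ip.adj_succ n0⟩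
  have MS : Anti G (h.SubO x gin \ h.Sub x η) (h.SubO x η) :=
    (h.t_anti_subO xH (fun z hz => hz.1.1.1) fun z hz => hz.2).symm
  have ginS : Anti G {gin} (h.SubO x η) :=
    (h.t_anti_subO xH (by simpa using ginH) (by
      rintro z rfl w; exact (Sin w).2 rfl)).symm
  have xS : Anti G {x} (h.SubO x η) := h.t_root_anti xH xη
  have xin : Anti G {x} (h.SubO x gin) := h.t_root_anti xH d.a1.ne
  have xU : Anti G {x} (h.SubO x gout) := h.t_root_anti xH d.a2.ne
  have sgo : ({gout} : Set V) ⊆ h.Sub x gout := by simpa using h.t_self_sub xH goutH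
  have sgi : ({gin} : Set V) ⊆ h.Sub x gin := by simpa using h.t_self_sub xH ginH
  have sη : ({η} : Set V) ⊆ h.SubO x gin := by simpa using ηin
  have sO := h.t_subO_sub x gin
  have sO' := h.t_subO_sub x gout
  have dM : h.SubO x gin \ h.Sub x η ⊆ h.SubO x gin := Set.diff_subset
  have ηgin : Anti G {η} {gin} :=
    anti_singleton_singleton.2 ⟨ηg, h.white_not_adj hη d.w1⟩
  -- the bundle
  have hE : AFam G (Finset.Icc (i + 2) (i + 4)) fun j => (F j).set :=
    ⟨fun j hj => h.t_ear_conn (h.t_clean_ear c (by have := Finset.mem_Icc.1 hj; omega)),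
      fun j hj k hk ne => h.t_clean_anti c (by have := Finset.mem_Icc.1 hj; omega)
        (by have := Finset.mem_Icc.1 hk; omega) ne⟩
  have hE1 : ∀ j ∈ Finset.Icc (i + 2) (i + 4), Touch G (F j).set (h.SubO x gout) ∧
      Touch G (F j).set (h.SubO x η ∪ seg (F i).f 1 (F i).n) ∧ Anti G (F j).set {(F i).f 0} ∧
      ∀ X, X ⊆ HH S I → (∀ z ∈ X, z ∉ h.SubO x gout) → (∀ z ∈ X, z ∉ h.SubO x η) →
        Anti G (F j).set X := by
    intro j hj
    obtain ⟨j1, j2⟩ := Finset.mem_Icc.1 hj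
    have jn : j < n := by omega
    have ej := h.t_clean_ear c jn
    refine ⟨Touch.of_adj ((F j).t_mem (Nat.zero_le _)) (topU j j1 jn) ej.ea,
      Touch.of_adj ((F j).t_mem le_rfl)
        (Or.inl (rS j (by omega) jn (h.t_self_sub uH ej.bH))) ej.eb,
      (h.t_clean_anti c jn hi (by omega)).mono le_rfl s0, fun X hX n1 n2 => ?_⟩
    refine h.t_ear_anti s ej (h.t_clean_a s c jn) (h.t_clean_b s c jn) hX (fun z hz w => n1 z hz ?_)
      fun z hz w => n2 z hz (rS j (by omega) jn w)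
    rw [← rc']
    exact h.t_subO_trans uH w (rc' ▸ topU j j1 jn)
  have xn1 : x ∉ h.SubO x gout := xU.notMem rfl
  have xn2 : x ∉ h.SubO x η := xS.notMem rfl
  have gn1 : gin ∉ h.SubO x gout := fun z => br.notMem z.1 (sgi rfl)
  have gn2 : gin ∉ h.SubO x η := ginS.notMem rfl
  have on1 : gout ∉ h.SubO x gout := fun z => z.2 rfl
  have on2 : gout ∉ h.SubO x η := fun z => br.notMem (sgo rfl) (SinO z).1
  have Eη : ∀ j ∈ Finset.Icc (i + 2) (i + 4), Anti G (F j).set {η} := fun j hj =>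
    (hE1 j hj).2.2.2 _ (by simpa using ηH) (by
      rintro z rfl w; exact br.notMem w.1 ηin.1) (by rintro z rfl w; exact w.2 rfl)
  have EM : ∀ j ∈ Finset.Icc (i + 2) (i + 4), Anti G (F j).set (h.SubO x gin \ h.Sub x η) :=
    fun j hj => (hE1 j hj).2.2.2 _ (fun z hz => hz.1.1.1) (fun z hz w => br.notMem w.1 hz.1.1)
      fun z hz w => hz.2 w.1
  have E1 : ∀ j ∈ Finset.Icc (i + 2) (i + 4), ∀ z ∈ HH S I, z ∉ h.SubO x gout → z ∉ h.SubO x η →
      Anti G (F j).set {z} := fun j hj z zH n1 n2 =>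
    (hE1 j hj).2.2.2 _ (by simpa using zH) (by simpa using n1) (by simpa using n2)
  have tri3 : ∀ {X : Set V} {p q r : V}, Anti G X {p} → Anti G X {q} → Anti G X {r} →
      Anti G X {p, q, r} := fun a b c => a.union_right (b.union_right c)
  have fr : ∀ Y : Set V, Y ⊆ Free G S I {gin, x, gout, η} → ∀ z ∈ HH S I,
      z ∈ ({gin, x, gout, η} : Set V) → Anti G Y {z} := by
    rintro Y hY z zH hz w hw _ rfl
    exact ⟨fun q => (hY hw).1 (q ▸ zH), fun q => (hY hw).2 ⟨_, hz, q⟩⟩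
  intro t ht hT
  refine le_trans ?_ (show 34 ≤ 51 by omega)
  have tH := (h.t_clean_ear c (show i + 2 < n by omega)).aH
  have goOn : gout ∈ h.hseg u (F (i + 2)).a := by
    have := topU (i + 2) le_rfl (by omega)
    rw [← rc'] at this
    exact this.1.2
  have giOn : gin ∈ h.hseg u (F (i + 2)).a :=
    (h.t_sub_trans uH (h.t_sub_trans uH ⟨tH, goOn⟩ g1) x1).2
  rcases hc with ⟨q1, q2⟩ | ⟨q1, q2⟩
  · have ego : Anti G {(F i).f 0} {gout} := anti_singleton_singleton.2
      ⟨fun z => e.out 0 (Nat.zero_le _) (z ▸ goutH), fun z => by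
        rcases b.only _ goOn z with w | w
        · exact d.ne (q1.symm.trans w.symm)
        · exact d.a2.ne (q2.symm.trans w.symm)⟩
    have eP : h.Sub x gout = {gout} ∪ h.SubO x gout := by
      ext z
      by_cases w : z = gout
      · exact ⟨fun _ => Or.inl w, fun _ => sgo w⟩
      · exact ⟨fun a => Or.inr ⟨a, w⟩, fun a => (a.resolve_left w).1⟩
    refine h.ehf.base_count (b := x) (b' := gin) (e := (F i).f 0) (η := η) (B₁ := h.Sub x gout)
      (B₂ := h.SubO x gin \ h.Sub x η) (B₄ := h.SubO x η ∪ seg (F i).f 1 (F i).n)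
      d.a1 (q2 ▸ b.ey.symm) (q1 ▸ e.ea.symm) (h.t_conn_sub xH goutH) cM c4.1
      (br.mono le_rfl (dM.trans sO))
      ((br.mono le_rfl (SinO.trans sO)).union_right (tail _ fun z hz =>
        Or.inr (h.t_sub_side s gL (rc ▸ hz))))
      (MS.union_right (aM.symm.mono le_rfl sT))
      ⟨gout, sgo rfl, d.a2⟩ (xin.mono le_rfl dM)
      (xS.union_right (tail _ (by simpa using Or.inr xL)))
      gM (br.symm.mono sgi le_rfl) (ginS.union_right (tail _ (by simpa using ginL)))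
      c4.2 (by rw [eP]; exact ego.union_right (aU.mono s0 le_rfl)) (aM.mono s0 le_rfl)
      ηM ((h.t_sees_subO xH hη xη).mono Set.subset_union_left)
      (br.symm.mono (sη.trans sO) le_rfl)
      (tri3 (xin.mono le_rfl sη).symm ηgin (aη.mono s0 le_rfl).symm)
      hE (by simp) (fun j hj => ⟨(hE1 j hj).1.mono le_rfl sO', (hE1 j hj).2.1, EM j hj,
        tri3 (E1 j hj x xH xn1 xn2) (E1 j hj gin ginH gn1 gn2) (hE1 j hj).2.2.1, Eη j hj⟩)
      ht fun Y hY => ⟨(hT Y hY).2.1.mono le_rfl sO', (hT Y hY).2.2,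
        (fr Y (hT Y hY).1 x xH (by simp)).union_right (fr Y (hT Y hY).1 gin ginH (by simp)),
        fr Y (hT Y hY).1 η ηH (by simp)⟩
  · have egi : Anti G {(F i).f 0} {gin} := anti_singleton_singleton.2
      ⟨fun z => e.out 0 (Nat.zero_le _) (z ▸ ginH), fun z => by
        rcases b.only _ giOn z with w | w
        · exact d.a1.ne (q1.symm.trans w.symm)
        · exact d.ne (w.trans q2)⟩
    have sB : ({gin} : Set V) ∪ (h.SubO x gin \ h.Sub x η) ⊆ h.Sub x gin :=
      Set.union_subset sgi (dM.trans sO)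
    refine h.ehf.base_count (b := gout) (b' := x) (e := (F i).f 0) (η := η)
      (B₁ := h.SubO x gout) (B₂ := {gin} ∪ (h.SubO x gin \ h.Sub x η))
      (B₄ := h.SubO x η ∪ seg (F i).f 1 (F i).n)
      d.a2.symm (q2 ▸ b.ey.symm) (q1 ▸ e.ea.symm) cU
      ((conn_singleton gin).un cM (touch_singleton_left.2 (Or.inr gM))) c4.1
      (br.mono sO' sB)
      ((br.mono sO' (SinO.trans sO)).union_right (aU.symm.mono le_rfl sT))
      ((ginS.union_right (tail _ (by simpa using ginL))).union_left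
        (MS.union_right (aM.symm.mono le_rfl sT)))
      (h.t_sees_subO xH d.w2 d.a2.ne) (br.mono sgo sB)
      ((br.mono sgo (SinO.trans sO)).union_right (tail _ (by simpa using Or.inr gL)))
      ⟨gin, Or.inl rfl, d.a1⟩ xU (xS.union_right (tail _ (by simpa using Or.inr xL)))
      c4.2 (aU.mono s0 le_rfl) (egi.union_right (aM.mono s0 le_rfl))
      (ηM.mono Set.subset_union_right) ((h.t_sees_subO xH hη xη).mono Set.subset_union_left)
      (br.symm.mono (sη.trans sO) sO')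
      (tri3 (br.symm.mono (sη.trans sO) sgo) (xin.mono le_rfl sη).symm (aη.mono s0 le_rfl).symm)
      hE (by simp) (fun j hj => ⟨(hE1 j hj).1, (hE1 j hj).2.1,
        (E1 j hj gin ginH gn1 gn2).union_right (EM j hj),
        tri3 (E1 j hj gout goutH on1 on2) (E1 j hj x xH xn1 xn2) (hE1 j hj).2.2.1, Eη j hj⟩)
      ht fun Y hY => ⟨(hT Y hY).2.1, (hT Y hY).2.2.mono le_rfl Set.subset_union_right,
        (fr Y (hT Y hY).1 gout goutH (by simp)).union_right (fr Y (hT Y hY).1 x xH (by simp)),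
        fr Y (hT Y hY).1 η ηH (by simp)⟩

end Pool.Agent.Ehf
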