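import Pool.Agent.MP_3ad207_lc.H24.Base

/-! (TEETH): few links join the side branches at a door with the lower side. -/

set_option autoImplicit false

namespace Pool.Agent.Ehf

variable {V : Type*} {G : SimpleGraph V} {S I : Set V}

theorem t_free {Y C : Set V} (hY : Y ⊆ Free G S I C) {z : V} (zH : z ∈ HH S I) (hz : z ∈ C) :
    Anti G Y {z} := by
  rintro w hw _ rfl
  exact ⟨fun q => (hY hw).1 (q ▸ zH), fun q => (hY hw).2 ⟨_, hz, q⟩⟩

namespace Setup

variable (h : Setup G S I)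
include h

/-- a neighbour in the tree of a white neighbour `g` of `x` is `x` or lies below `g` -/
theorem t_white_nbr {x g v : V} (hx : x ∈ HH S I) (hg : g ∈ S \ I) (e : G.Adj x g)
    (hv : v ∈ HH S I) (a : G.Adj g v) : v = x ∨ v ∈ h.SubO x g := by
  have s := h.t_sides_white hx hg e.ne
  rcases h.t_cases s hv with c | c | c
  · exact (a.ne c.symm).elim
  · exact Or.inr c
  · exact Or.inl (h.one_nbr s.cR Set.diff_subset (white_mem_HH hg) (h.t_uL (h.t_symm s)) c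
      ⟨hx, h.t_root_notMem hx e.ne⟩ a e.symm)

/-- the branch at a black vertex that contains a vertex not adjacent to it -/
theorem t_tooth {x z : V} (hx : x ∈ I \ S) (hz : z ∈ HH S I) (a : Anti G {z} {x}) :
    ∃ w, w ∈ S \ I ∧ G.Adj x w ∧ z ∈ h.SubO x w := by
  have xH := black_mem_HH hx
  have ne : x ≠ z := (a.ne rfl rfl).symm
  have e := h.adj_hpath_one xH hz ne
  have m := h.hpath_one_mem xH hz ne
  exact ⟨_, h.white_of_adj_black hx (h.hseg_subset_H xH hz m.1) e, e, ⟨hz, m.1⟩,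
    fun c => a.not_adj rfl rfl (by rw [Set.mem_singleton_iff.1 c]; exact e.symm)⟩

end Setup

/-- the counting frame shared by the two statements -/
theorem Setup.t_teeth_frame {V : Type} [Finite V] {G : SimpleGraph V} {S I : Set V} (h : Setup G S I)
    {x : V} {K L U A : Set V} (hx : x ∈ I \ S) (cK : Conn G K) (cL : Conn G L)
    (Kx : Anti G K {x}) (xL : Anti G {x} L) (LK : Anti G L K) (hA : A ⊆ K ∩ HH S I)
    (one : ∀ w z, w ∈ S \ I → G.Adj x w → z ∈ h.SubO x w → z ∈ A → ∀ s : Finset (Set V),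
      AFam G s id → (∀ Y ∈ s, Y ⊆ U ∧ Touch G Y (h.SubO x w) ∧ Touch G Y L) → s.card ≤ 34) :
    NuLe G U A L (34 * diagN 18) := by
  classical
  have xH := black_mem_HH hx
  intro s hs hT
  have hex : ∀ Y ∈ s, ∃ w, w ∈ S \ I ∧ G.Adj x w ∧ Touch G Y (h.SubO x w) ∧
      ∃ z ∈ h.SubO x w, z ∈ A := by
    intro Y hY
    obtain ⟨y, hy, z, hz, e⟩ := (hT Y hY).2.1
    obtain ⟨w, w1, w2, w3⟩ := h.t_tooth hx (hA hz).2 (Kx.mono (by simpa using (hA hz).1) le_rfl)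
    exact ⟨w, w1, w2, ⟨y, hy, z, w3, e⟩, z, w3, hz⟩
  haveI hne : Nonempty V := ⟨x⟩
  choose! τ hτ using hex
  refine h.ehf.teeth (conn_singleton x) cL cK xL Kx.symm LK hs τ (fun w => h.Sub x w)
    (fun Y hY => h.t_conn_sub xH (white_mem_HH (hτ Y hY).1))
    (fun Y hY Z hZ ne => h.t_branch_anti hx (hτ Y hY).2.1 (hτ Z hZ).2.1 ne)
    (fun Y hY => ?_) fun w => ?_
  · obtain ⟨w1, w2, w3, z, z1, z2⟩ := hτ Y hY
    exact ⟨w3.mono le_rfl (h.t_subO_sub _ _), (hT Y hY).2.2,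
      Touch.of_adj (h.t_self_sub xH (white_mem_HH w1)) rfl w2.symm, Touch.of_mem z1.1 (hA z2).1⟩
  · rcases (s.filter fun Y => τ Y = w).eq_empty_or_nonempty with c | ⟨Y₀, c⟩
    · rw [c]; simp
    obtain ⟨c1, rfl⟩ := Finset.mem_filter.1 c
    obtain ⟨w1, w2, -, z, z1, z2⟩ := hτ Y₀ c1
    refine one _ z w1 w2 z1 z2 _ (hs.mono (Finset.filter_subset _ _)) fun Y hY => ?_
    obtain ⟨d1, d2⟩ := Finset.mem_filter.1 hY
    exact ⟨(hT Y d1).1, d2 ▸ (hτ Y d1).2.2.1, (hT Y d1).2.2⟩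

theorem teethStmt : TeethStmt := by
  refine ⟨34 * diagN 18, fun V _ G S I h g₁ x g₂ K ρ d cK Kx KL KU KO _ hρ aρ => ?_⟩
  have xH := black_mem_HH d.black
  have g1H := white_mem_HH d.w1
  have g2H := white_mem_HH d.w2
  have cL := h.t_conn_subO xH d.w2 d.a2.ne
  have cU := h.t_conn_subO xH d.w1 d.a1.ne
  have xL := h.t_root_anti xH d.a2.ne
  have xU := h.t_root_anti xH d.a1.ne
  have sO := h.t_subO_sub x
  have self : ∀ {g}, g ∈ HH S I → ({g} : Set V) ⊆ h.Sub x g := fun hg => by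
    simpa using h.t_self_sub xH hg
  have b21 := h.t_branch_anti d.black d.a2 d.a1 d.ne.symm
  refine h.t_teeth_frame d.black cK cL Kx xL KL.symm (fun z hz => ⟨hz.1, hz.2.1⟩) ?_
  intro w z hw xw zw zA s hs hT
  have wH := white_mem_HH hw
  have w1 : w ≠ g₁ := fun c => zA.2.2 (Or.inl (c ▸ zw.1))
  have w2 : w ≠ g₂ := fun c => zA.2.2 (Or.inr (c ▸ zw.1))
  have bw1 := h.t_branch_anti d.black xw d.a1 w1
  have bw2 := h.t_branch_anti d.black xw d.a2 w2
  have hj : ∀ t : Fin 3, ∃ u R, ({u} : Set V) ⊆ ρ t ∧ R ⊆ ρ t ∧ Sees G u (h.SubO x g₁) ∧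
      Anti G R (h.SubO x g₁) ∧ Conn G (h.SubO x g₂ ∪ R) ∧ Sees G u (h.SubO x g₂ ∪ R) := by
    intro t
    obtain ⟨u, R, a1, a2, a3, a4, a5, a6, -, a8, a9, -⟩ := (hρ t).1.conn.exists_joint cL
      (hρ t).1.tQ (hρ t).1.tP (b21.symm.mono (sO _) (sO _))
    exact ⟨u, R, a1, a2, a3, a4, a5, a6.resolve_left fun c => c.elim a8 a9⟩
  choose r R hr using hj
  have mid : ∀ t, Anti G (ρ t) ({x, w, g₁} ∪ h.SubO x w) := fun t => (hρ t).1.anti.mono le_rfl (by
    rintro y ((rfl | rfl | rfl) | hy)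
    · exact ⟨xH, fun c => c.elim (xL.notMem rfl) (xU.notMem rfl)⟩
    · exact ⟨wH, fun c => c.elim (fun c => bw2.notMem (self wH rfl) c.1)
        fun c => bw1.notMem (self wH rfl) c.1⟩
    · exact ⟨g1H, fun c => c.elim (fun c => b21.notMem c.1 (self g1H rfl)) fun c => c.2 rfl⟩
    · exact ⟨hy.1.1, fun c => c.elim (fun c => bw2.notMem hy.1 c.1) fun c => bw1.notMem hy.1 c.1⟩)
  have gK : ∀ {g : V}, g ∈ S \ I → G.Adj x g → (∀ v ∈ K, v ∉ HH S I → ¬ G.Adj v g) →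
      Anti G {g} (K \ h.SubO x g) := by
    rintro g hg e ho _ rfl v hv
    refine ⟨fun c => Kx.not_adj hv.1 rfl (c ▸ e.symm), fun a => ?_⟩
    by_cases c : v ∈ HH S I
    · rcases h.t_white_nbr xH hg e c a with q | q
      · exact Kx.ne hv.1 rfl q
      · exact hv.2 q
    · exact ho v hv.1 c a.symm
  refine h.ehf.tw_count (x := x) (w := w) (g' := g₁) (T := h.SubO x w) (U := h.SubO x g₁) (K := K)
    (L := h.SubO x g₂) (h.t_conn_subO xH hw xw.ne) cU cK cL (h.t_root_anti xH xw.ne) xU Kx.symm xL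
    (bw1.mono (sO _) (sO _)) (bw2.mono (sO _) (sO _)) (b21.mono (sO _) (sO _)) KL.symm
    (Touch.of_mem zA.1 zw) KU xw.symm (h.t_sees_subO xH hw xw.ne) (bw2.mono (self wH) (sO _))
    (bw1.mono (self wH) (sO _)) d.a1.symm (h.t_sees_subO xH d.w1 d.a1.ne)
    (bw1.symm.mono (self g1H) (sO _)) (b21.symm.mono (self g1H) (sO _))
    (gK d.w1 d.a1 fun v a b => (KO v a b).1)
    (t := Finset.univ) (E := ρ) (R := R) (g := fun _ => g₂) (r := r)
    ⟨fun t _ => (hρ t).1.conn, fun t _ t' _ ne => aρ t t' ne⟩ (by simp)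
    (fun t _ => ⟨(hr t).2.2.2.2.1, (((mid t).mono (hr t).2.1 le_rfl).union_right
      (hr t).2.2.2.1).union_right ((hρ t).2.mono (hr t).2.1 le_rfl)⟩)
    (fun t _ => ⟨d.a2.symm, (h.t_sees_subO xH d.w2 d.a2.ne).mono Set.subset_union_left,
      ((bw2.symm.mono (self g2H) (sO _)).union_right (b21.mono (self g2H) (sO _))).union_right
        ((gK d.w2 d.a2 fun v a b => (KO v a b).2).mono le_rfl fun v hv => ⟨hv, KL.notMem hv⟩)⟩)
    (fun t _ => ⟨(hr t).2.2.2.2.2, (hr t).2.2.1, ((mid t).mono (hr t).1 ?_).union_right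
      ((hρ t).2.mono (hr t).1 Set.diff_subset)⟩)
    hs (fun Y hY => ⟨(hT Y hY).2.1, (hT Y hY).2.2, t_free (hT Y hY).1 xH (by simp),
      t_free (hT Y hY).1 g1H (by simp)⟩)
    fun Y hY t _ a => ((a.mono le_rfl (hr t).2.1).union_right
      (t_free (hT Y hY).1 g2H (by simp))).union_right (a.mono le_rfl (hr t).1)
  rintro y ((rfl | rfl) | hy)
  · exact Or.inl (Or.inl rfl)
  · exact Or.inl (Or.inr (Or.inl rfl))
  · exact Or.inr hy

theorem teeth2Stmt : Teeth2Stmt := by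
  refine ⟨34 * diagN 18,
    fun V _ G S I h w₀ x g K ω ρ hx hw₀ xw₀ hg gw cK Kx KL KU KO _ hρ aρ => ?_⟩
  have xH := black_mem_HH hx
  have w0H := white_mem_HH hw₀
  have gH := white_mem_HH hg
  have xg : x ≠ g := black_ne_white hx hg
  have cL := h.t_conn_subO xH hg xg
  obtain ⟨cU, wU, gU⟩ := h.t_between xH hw₀ hg xw₀.ne gw
  have xL := h.t_root_anti xH xg
  have x0 := h.t_root_anti xH xw₀.ne
  have sO := h.t_subO_sub x
  have self : ∀ {g}, g ∈ HH S I → ({g} : Set V) ⊆ h.Sub x g := fun hg => by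
    simpa using h.t_self_sub xH hg
  have Sg : h.Sub x g ⊆ h.SubO x w₀ := fun y hy => h.t_subO_trans xH hy gw
  have sL : h.SubO x g ⊆ h.Sub x w₀ := (sO _).trans (Sg.trans (sO _))
  have sU : h.SubO x w₀ \ h.Sub x g ⊆ h.Sub x w₀ := Set.diff_subset.trans (sO _)
  have w0g : w₀ ∉ h.Sub x g := fun c => (Sg c).2 rfl
  refine h.t_teeth_frame hx cK cL Kx xL KL.symm (fun z hz => ⟨hz.1, hz.2.1⟩) ?_
  intro w z hw xw zw zA s hs hT
  have wH := white_mem_HH hw
  have w1 : w ≠ w₀ := fun c => zA.2.2 (c ▸ zw.1)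
  have bw := h.t_branch_anti hx xw xw₀ w1
  have b0 : ∀ t, Anti G (h.Sub x (ω t)) (h.Sub x w₀) := fun t =>
    h.t_branch_anti hx (hρ t).2.1 xw₀ (hρ t).2.2.1
  have ωH : ∀ t, ω t ∈ HH S I := fun t => white_mem_HH (hρ t).1
  have cE : ∀ t, Conn G (ρ t ∪ h.Sub x (ω t)) := fun t =>
    (hρ t).2.2.2.1.conn.un (h.t_conn_sub xH (ωH t)) (hρ t).2.2.2.1.tP
  have other : ∀ t v, G.Adj x v → v ≠ ω t → v ≠ w₀ →
      Anti G (ρ t ∪ h.Sub x (ω t)) (h.Sub x v) := by
    intro t v e n1 n2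
    have q1 := h.t_branch_anti hx e (hρ t).2.1 n1
    have q2 := h.t_branch_anti hx e xw₀ n2
    exact ((hρ t).2.2.2.1.anti.mono le_rfl fun y hy =>
      ⟨hy.1, fun c => c.elim (q1.notMem hy) fun c => q2.notMem hy (sL c)⟩).union_left q1.symm
  have upper : ∀ t, Anti G (ρ t ∪ h.Sub x (ω t)) (h.Sub x w₀ \ h.SubO x g) := fun t =>
    ((hρ t).2.2.2.1.anti.mono le_rfl fun y hy =>
      ⟨hy.1.1, fun c => c.elim (fun c => (b0 t).notMem c hy.1) hy.2⟩).union_left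
      ((b0 t).mono le_rfl Set.diff_subset)
  have wω : ∀ t, w ≠ ω t := fun t c => (hρ t).2.2.2.2.notMem (Or.inr (c ▸ zw.1)) zA.1
  have hj : ∀ t : Fin 3, ∃ u R, ({u} : Set V) ⊆ ρ t ∪ h.Sub x (ω t) ∧ R ⊆ ρ t ∪ h.Sub x (ω t) ∧
      G.Adj u x ∧ Anti G R {x} ∧ Conn G (h.SubO x g ∪ R) ∧ Sees G u (h.SubO x g ∪ R) := by
    intro t
    obtain ⟨u, R, a1, a2, a3, a4, a5, a6, -, a8, a9, -⟩ := (cE t).exists_joint (B := {x}) cL
      (Touch.of_adj (Or.inr (self (ωH t) rfl)) rfl (hρ t).2.1.symm)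
      ((hρ t).2.2.2.1.tQ.mono Set.subset_union_left le_rfl) xL
    exact ⟨u, R, a1, a2, sees_singleton.1 a3, a4, a5, a6.resolve_left fun c => c.elim a8 a9⟩
  choose r R hr using hj
  have uU : h.SubO x w₀ \ h.Sub x g ⊆ h.Sub x w₀ \ h.SubO x g := fun y hy =>
    ⟨hy.1.1, fun c => hy.2 c.1⟩
  have uw : ({w₀} : Set V) ⊆ h.Sub x w₀ \ h.SubO x g := by
    rintro _ rfl; exact ⟨self w0H rfl, fun c => w0g c.1⟩
  refine h.ehf.tw_count (x := x) (w := w) (g' := w₀) (T := h.SubO x w)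
    (U := h.SubO x w₀ \ h.Sub x g) (K := K) (L := h.SubO x g)
    (h.t_conn_subO xH hw xw.ne) cU cK cL (h.t_root_anti xH xw.ne)
    (x0.mono le_rfl Set.diff_subset) Kx.symm xL (bw.mono (sO _) sU) (bw.mono (sO _) sL)
    (h.t_anti_subO xH (fun y hy => hy.1.1.1) fun y hy => hy.2) KL.symm
    (Touch.of_mem zA.1 zw) KU xw.symm (h.t_sees_subO xH hw xw.ne) (bw.mono (self wH) sL)
    (bw.mono (self wH) sU) xw₀.symm wU (bw.symm.mono (self w0H) (sO _))
    (h.t_anti_subO xH (by simpa using w0H) (by simpa using w0g)).symm ?_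
    (t := Finset.univ) (E := fun t => ρ t ∪ h.Sub x (ω t)) (R := R) (g := r) (r := fun _ => g)
    ⟨fun t _ => cE t, fun t _ t' _ ne =>
      ((aρ t t' ne).2.union_left ((other t' _ (hρ t).2.1 (aρ t t' ne).1
        (hρ t).2.2.1).symm.mono le_rfl Set.subset_union_left)).union_right
        (other t _ (hρ t').2.1 (aρ t t' ne).1.symm (hρ t').2.2.1)⟩ (by simp)
    (fun t _ => ⟨(hr t).2.2.2.2.1, ((((hr t).2.2.2.1.union_right
      (((other t w xw (wω t) w1).mono (hr t).2.1 (self wH)).union_right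
        ((upper t).mono (hr t).2.1 uw))).union_right
      ((other t w xw (wω t) w1).mono (hr t).2.1 (sO _))).union_right
      ((upper t).mono (hr t).2.1 uU)).union_right ((hρ t).2.2.2.2.mono (hr t).2.1 le_rfl)⟩)
    (fun t _ => ⟨(hr t).2.2.1, (hr t).2.2.2.2.2,
      (((other t w xw (wω t) w1).mono (hr t).1 (sO _)).union_right
        ((upper t).mono (hr t).1 uU)).union_right ((hρ t).2.2.2.2.mono (hr t).1 le_rfl)⟩)
    (fun t _ => ⟨(h.t_sees_subO xH hg xg).mono Set.subset_union_left, gU,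
      (((x0.symm.mono (by simpa using gw) le_rfl).union_right
        (bw.symm.mono (by simpa using gw.1) (self wH))).union_right
        (bw.symm.mono (by simpa using gw.1) (sO _))).union_right ?_⟩)
    hs (fun Y hY => ⟨(hT Y hY).2.1, (hT Y hY).2.2, t_free (hT Y hY).1 xH (by simp),
      t_free (hT Y hY).1 w0H (by simp)⟩)
    fun Y hY t _ a => ((a.mono le_rfl (hr t).2.1).union_right
      (a.mono le_rfl (hr t).1)).union_right (t_free (hT Y hY).1 gH (by simp))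
  · intro g' hg' v hv
    rw [Set.mem_singleton_iff.1 hg']
    refine ⟨fun c => Kx.not_adj hv.1 rfl (c ▸ xw₀.symm), fun a => ?_⟩
    by_cases c : v ∈ HH S I
    · rcases h.t_white_nbr xH hw₀ xw₀ c a with q | q
      · exact Kx.ne hv.1 rfl q
      · refine hv.2 ⟨q, fun z => ?_⟩
        have := h.t_exit xH z w0H w0g a.symm
        exact h.white_not_adj hw₀ hg (this ▸ a)
    · exact (KO v hv.1 c).1 a.symm
  · intro g' hg' v hv
    rw [Set.mem_singleton_iff.1 hg']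
    refine ⟨fun c => KL.not_sees hv.1 (c ▸ h.t_sees_subO xH hg xg), fun a => ?_⟩
    by_cases c : v ∈ HH S I
    · by_cases q : v ∈ h.Sub x g
      · exact KL.notMem hv.1 ⟨q, a.ne.symm⟩
      · refine hv.2 ⟨⟨?_, fun z => h.white_not_adj hg hw₀ ((Set.mem_singleton_iff.1 z) ▸ a)⟩, q⟩
        by_contra z
        exact gw.2 (h.t_exit xH gw.1 c z a)
    · exact (KO v hv.1 c).2 a.symm

end Pool.Agent.Ehf
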